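import Pool.Agent.Q28.SG.LN
import Pool.Agent.TH487.RP.PV
import Pool.Agent.Y766.R8.AV

/-!
# Large central values in a family of positive type
-/

set_option autoImplicit false
set_option linter.unusedSectionVars false

namespace Pool.Agent.Q28.SG

open Finset ComplexOrder ComplexConjugate

/-- the truncated series approximates the central value -/
lemma approx {q : ℕ} [NeZero q] (hq : q.Prime) (hq2 : q ≠ 2) {χ : DirichletCharacter ℂ q}
    (hχ : χ ≠ 1) {N : ℕ} (hN1 : 1 ≤ N) (hN : 4 * q * Real.log q ^ 2 ≤ N) :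
    ‖χ.LFunction (1 / 2) - LN N χ‖ ≤ 1 := by
  haveI : Fact q.Prime := ⟨hq⟩
  have hq0 : (0 : ℝ) < q := by exact_mod_cast hq.pos
  have hlog : 0 ≤ Real.log q := Real.log_nonneg (by exact_mod_cast hq.one_lt.le)
  have hN0 : (0 : ℝ) < N := by exact_mod_cast hN1
  have hB : ∀ x : ℕ, ‖∑ k ∈ Ioc N x, ∑ i ∈ ({()} : Finset Unit), (1 : ℂ) * χ (k : ZMod q)‖ ≤
      2 * (√q * Real.log q) := by
    intro x
    simp only [sum_const, card_singleton, one_smul, one_mul]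
    rcases le_or_gt x N with h | h
    · rw [Ioc_eq_empty_of_le h, sum_empty, norm_zero]
      positivity
    · have h1 : ∑ k ∈ Ioc N x, χ (k : ZMod q) =
          ∑ n ∈ range (x + 1), χ ((n : ℕ) : ZMod q) - ∑ n ∈ range (N + 1), χ ((n : ℕ) : ZMod q) := by
        have h2 : Ioc N x = Ico (N + 1) (x + 1) := by
          ext k
          simp only [mem_Ioc, mem_Ico]
          omega
        rw [h2, sum_Ico_eq_sub _ (by omega)]
      rw [h1]
      refine (norm_sub_le _ _).trans ?_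
      have h3 := Pool.Agent.TH487.RP.polya_vinogradov q hq2 χ hχ (x + 1)
      have h4 := Pool.Agent.TH487.RP.polya_vinogradov q hq2 χ hχ (N + 1)
      linarith
  have h := Pool.Agent.Y766.R8.avg ({()} : Finset Unit) (fun _ => χ) (fun _ => 1) (N := N)
    (B := 2 * (√q * Real.log q)) (s := 1 / 2) (fun _ _ => hχ) hN1 (by norm_num) hB
  simp only [sum_singleton, one_mul] at h
  have e1 : ∑ n ∈ Icc 1 N, χ (n : ZMod q) * (n : ℂ) ^ (-(1 / 2) : ℂ) = LN N χ := by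
    refine sum_congr rfl fun n hn => ?_
    rw [mul_comm]
    congr 1
    have hn0 : (0 : ℝ) ≤ n := Nat.cast_nonneg n
    rw [Real.sqrt_eq_rpow, ← Real.rpow_neg hn0, Complex.ofReal_cpow hn0]
    push_cast
    rfl
  rw [e1] at h
  refine h.trans ?_
  have e2 : ‖(1 / 2 : ℂ)‖ = 1 / 2 := by norm_num
  have e3 : (1 / 2 : ℂ).re = 1 / 2 := by norm_num
  rw [e2, e3, Real.rpow_neg hN0.le, ← Real.sqrt_eq_rpow]
  have h5 : 2 * (√q * Real.log q) ≤ √N := by
    refine Real.le_sqrt_of_sq_le (le_trans (le_of_eq ?_) hN)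
    rw [mul_pow, mul_pow, Real.sq_sqrt hq0.le]
    ring
  have h6 : 0 < √(N : ℝ) := Real.sqrt_pos.2 hN0
  have h7 : 2 * (√q * Real.log q) * (√(N : ℝ))⁻¹ ≤ 1 := by
    rw [← div_eq_mul_inv, div_le_one h6]
    exact h5
  calc 1 / 2 * (2 * (√q * Real.log q) * ((√(N : ℝ))⁻¹ / (1 / 2)))
      = 2 * (√q * Real.log q) * (√(N : ℝ))⁻¹ := by ring
    _ ≤ 1 := h7

lemma sum_inv_sqrt (N : ℕ) : ∑ n ∈ Icc 1 N, (√(n : ℝ))⁻¹ ≤ 2 * √N := by
  induction N with
  | zero => simp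
  | succ N ih =>
    rw [sum_Icc_succ_top (by omega)]
    have h1 : (0 : ℝ) < ((N + 1 : ℕ) : ℝ) := by positivity
    have h2 : 0 < √((N + 1 : ℕ) : ℝ) := Real.sqrt_pos.2 h1
    have h3 : (√((N + 1 : ℕ) : ℝ))⁻¹ ≤ 2 * √((N + 1 : ℕ) : ℝ) - 2 * √(N : ℝ) := by
      rw [inv_le_iff_one_le_mul₀ h2]
      have h4 : √((N + 1 : ℕ) : ℝ) ^ 2 = N + 1 := by
        rw [Real.sq_sqrt h1.le]
        push_cast
        ring
      have h5 : √(N : ℝ) ^ 2 = N := Real.sq_sqrt (Nat.cast_nonneg N)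
      nlinarith [sq_nonneg (√((N + 1 : ℕ) : ℝ) - √(N : ℝ))]
    linarith

variable {q : ℕ} [NeZero q]

lemma LN_norm_le (N : ℕ) (χ : DirichletCharacter ℂ q) : ‖LN N χ‖ ≤ 2 * √N := by
  refine (norm_sum_le _ _).trans (le_trans (sum_le_sum fun n _ => ?_) (sum_inv_sqrt N))
  rw [norm_mul, Complex.norm_real, Real.norm_of_nonneg (by positivity)]
  exact mul_le_of_le_one_right (by positivity) (DirichletCharacter.norm_le_one χ _)

/-- large truncated values -/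
theorem large {𝓕 : Finset (DirichletCharacter ℂ q)} (h𝓕 : PosFam 𝓕) (h1 : 1 ∈ 𝓕)
    {ι : Type*} [Fintype ι] [DecidableEq ι] [Nonempty ι] (P : ι → Finset ℕ) (Z : ι → ℝ) (K : ι → ℕ)
    (hZ : ∀ i, 0 < Z i)
    (hP : ∀ i, ∀ p ∈ P i, p.Prime ∧ p.Coprime q ∧ (p : ℝ) ≤ Z i)
    (hd : ∀ i j, i ≠ j → Disjoint (P i) (P j)) {N : ℕ} (hN : ∏ i, Z i ≤ N)
    (hK : ∀ i, (16 * Z i) ^ K i ≤ (((K i).factorial * (#(P i)).descFactorial (K i) : ℕ) : ℝ))
    (hbad : ∑ i, (1 / 2 : ℝ) ^ K i ≤ 1 / 2) (D : ι → ℝ)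
    (hD : ∀ i, (∑ k ∈ range (K i + 1), ((2 * √(Z i))⁻¹ * #(P i)) ^ (K i + k)) ^ 2 ≤
      D i * (((4 * Z i) ^ (2 * K i))⁻¹ *
        (((2 * K i).factorial * (#(P i)).descFactorial (2 * K i) : ℕ) : ℝ)))
    (hc : ∀ i, 2 * K i ≤ #(P i))
    (hcost : 8 * √N * ∏ i, D i ≤ #𝓕) :
    ∃ χ ∈ 𝓕, χ ≠ 1 ∧ 2 ^ Fintype.card ι / 4 ≤ ‖LN N χ‖ := by
  classical
  set s : ι → DirichletCharacter ℂ q → ℂ := fun i χ =>
    ((((2 * √(Z i))⁻¹ : ℝ) : ℂ) * S (P i) χ) with hs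
  have hτ : ∀ i, 0 ≤ (2 * √(Z i))⁻¹ := fun i => by positivity
  have hsp : ∀ i, Pos (s i) := fun i => (S_pos fun p hp => (hP i p hp).2.1).smul (hτ i)
  have hτ2 : ∀ i (k : ℕ), ((2 * √(Z i))⁻¹) ^ (2 * k) = ((4 * Z i) ^ k)⁻¹ := by
    intro i k
    rw [pow_mul, inv_pow, mul_pow, Real.sq_sqrt (hZ i).le, inv_pow]
    norm_num
  have hpow : ∀ i (k : ℕ) (χ : DirichletCharacter ℂ q), s i χ ^ k * conj (s i χ) ^ k =
      ((((4 * Z i) ^ k)⁻¹ : ℝ) : ℂ) * (S (P i) χ ^ k * conj (S (P i) χ) ^ k) := by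
    intro i k χ
    rw [hs]
    beta_reduce
    rw [map_mul, Complex.conj_ofReal, mul_pow, mul_pow, ← hτ2 i k]
    push_cast
    ring
  have hmom : ∀ i (k : ℕ), PLe (fun _ => ((((4 * Z i) ^ k)⁻¹ *
      ((k.factorial * (#(P i)).descFactorial k : ℕ) : ℝ) : ℝ) : ℂ))
      (fun χ => s i χ ^ k * conj (s i χ) ^ k) := by
    intro i k
    refine ((diag (fun p hp => (hP i p hp).2.1) k).smul (c := ((4 * Z i) ^ k)⁻¹)
      (by have := hZ i; positivity)).congr fun χ => ?_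
    beta_reduce
    rw [hpow]
    push_cast
    ring
  -- the hypotheses of the resonance inequality
  have hA : ∀ i ∈ (univ : Finset ι), PLe (fun _ => ((4 ^ K i : ℝ) : ℂ))
      (fun χ => s i χ ^ K i * conj (s i χ) ^ K i) := by
    intro i _
    refine PLe.trans ?_ (hmom i (K i))
    have h4 : 0 ≤ ((4 * Z i) ^ K i)⁻¹ * (((K i).factorial * (#(P i)).descFactorial (K i) : ℕ) : ℝ) -
        4 ^ K i := by
      have h5 : 0 < (4 * Z i) ^ K i := by have := hZ i; positivity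
      rw [sub_nonneg, inv_mul_eq_div, le_div_iff₀ h5, ← mul_pow]
      refine le_trans (le_of_eq ?_) (hK i)
      congr 1
      ring
    refine (Pos.const h4).congr fun χ => ?_
    push_cast
    ring
  have hL : PLe (fun χ : DirichletCharacter ℂ q => ∏ i, (2 * s i χ)) (LN N) :=
    LN_ge P Z (fun i p hp => ⟨(hP i p hp).1, (hP i p hp).2.2⟩) hd hN
  have key := resonance h𝓕 univ K (fun i _ => hsp i) hA hL
  set c : ι → ℝ := fun i => ((4 * Z i) ^ (2 * K i))⁻¹ *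
    (((2 * K i).factorial * (#(P i)).descFactorial (2 * K i) : ℕ) : ℝ) with hcdef
  have hc0 : ∀ i, 0 < c i := by
    intro i
    have h5 : 0 < (4 * Z i) ^ (2 * K i) := by have := hZ i; positivity
    have h6 : 0 < (2 * K i).factorial * (#(P i)).descFactorial (2 * K i) :=
      Nat.mul_pos (Nat.factorial_pos _) (Nat.descFactorial_pos.2 (hc i))
    have h7 : (0 : ℝ) < (((2 * K i).factorial * (#(P i)).descFactorial (2 * K i) : ℕ) : ℝ) := by
      exact_mod_cast h6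
    exact mul_pos (inv_pos.2 h5) h7
  have low := lower h𝓕 univ K c (fun i _ => hsp i) (fun i _ => (hc0 i).le)
    (fun i _ => hmom i (2 * K i))
  set R : DirichletCharacter ℂ q → ℂ := fun χ => ∏ i, Rb (s i) (K i) χ with hR
  set T := ∑ χ ∈ 𝓕, ‖R χ‖ ^ 2 with hT
  have hcard : (0 : ℝ) < #𝓕 := by
    have : 0 < #𝓕 := card_pos.2 ⟨1, h1⟩
    exact_mod_cast this
  have hcp : 0 < ∏ i, c i := prod_pos fun i _ => hc0 i
  have hT0 : 0 < T := lt_of_lt_of_le (mul_pos hcard hcp) low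
  -- the value at the principal character
  have hR1 : ‖R 1‖ ^ 2 ≤ (∏ i, D i) * ∏ i, c i := by
    have e1 : ∀ i, ‖Rb (s i) (K i) 1‖ = ∑ k ∈ range (K i + 1),
        ((2 * √(Z i))⁻¹ * #(P i)) ^ (K i + k) := by
      intro i
      have e2 : s i 1 = (((2 * √(Z i))⁻¹ * #(P i) : ℝ) : ℂ) := by
        rw [hs]
        beta_reduce
        have e3 : S (P i) (1 : DirichletCharacter ℂ q) = (#(P i) : ℂ) := by
          rw [S, sum_congr rfl (g := fun _ => (1 : ℂ)), sum_const, nsmul_eq_mul, mul_one]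
          intro p hp
          exact MulChar.one_apply ((ZMod.isUnit_iff_coprime p q).2 (hP i p hp).2.1)
        rw [e3]
        push_cast
        ring
      rw [Rb, e2]
      have e4 : ∑ k ∈ range (K i + 1), ((((2 * √(Z i))⁻¹ * #(P i) : ℝ) : ℂ)) ^ (K i + k) =
          ((∑ k ∈ range (K i + 1), ((2 * √(Z i))⁻¹ * #(P i)) ^ (K i + k) : ℝ) : ℂ) := by
        push_cast
        rfl
      rw [e4, Complex.norm_real, Real.norm_of_nonneg]
      exact sum_nonneg fun k _ => by positivity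
    rw [hR]
    beta_reduce
    rw [norm_prod, ← prod_pow, ← prod_mul_distrib]
    refine prod_le_prod (fun i _ => by positivity) fun i _ => ?_
    rw [e1]
    exact hD i
  by_contra hcon
  push Not at hcon
  set V : ℝ := 2 ^ Fintype.card ι / 4 with hV
  have hb1 : (∑ χ ∈ 𝓕, LN N χ * (R χ * conj (R χ))).re ≤ V * T + 2 * √N * ‖R 1‖ ^ 2 := by
    rw [Complex.re_sum]
    have h5 : ∀ χ ∈ 𝓕, (LN N χ * (R χ * conj (R χ))).re ≤
        V * ‖R χ‖ ^ 2 + if χ = 1 then 2 * √N * ‖R 1‖ ^ 2 else 0 := by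
      intro χ hχ
      have h6 : ‖LN N χ * (R χ * conj (R χ))‖ = ‖LN N χ‖ * ‖R χ‖ ^ 2 := by
        rw [norm_mul, norm_mul, Complex.norm_conj]
        ring
      refine (Complex.re_le_norm _).trans ?_
      rw [h6]
      split_ifs with h
      · subst h
        have h7 := mul_le_mul_of_nonneg_right (LN_norm_le N (1 : DirichletCharacter ℂ q))
          (sq_nonneg ‖R 1‖)
        have h8 : 0 ≤ V * ‖R 1‖ ^ 2 := by positivity
        linarith
      · rw [add_zero]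
        exact mul_le_mul_of_nonneg_right (hcon χ hχ h).le (by positivity)
    refine (sum_le_sum h5).trans (le_of_eq ?_)
    rw [sum_add_distrib, ← mul_sum, sum_ite_eq' 𝓕 1, if_pos h1]
  have hb2 : 2 * √N * ‖R 1‖ ^ 2 ≤ T / 4 := by
    have h5 : 8 * √N * ‖R 1‖ ^ 2 ≤ T := by
      calc 8 * √N * ‖R 1‖ ^ 2 ≤ 8 * √N * ((∏ i, D i) * ∏ i, c i) :=
            mul_le_mul_of_nonneg_left hR1 (by positivity)
        _ = (8 * √N * ∏ i, D i) * ∏ i, c i := by ring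
        _ ≤ #𝓕 * ∏ i, c i := mul_le_mul_of_nonneg_right hcost hcp.le
        _ ≤ T := low
    linarith
  have hn : (2 : ℝ) ≤ 2 ^ Fintype.card ι := by
    have : 1 ≤ Fintype.card ι := Fintype.card_pos
    calc (2 : ℝ) = 2 ^ 1 := by norm_num
      _ ≤ 2 ^ Fintype.card ι := pow_le_pow_right₀ (by norm_num) this
  rw [card_univ] at key
  have h5 : 2 ^ Fintype.card ι * (1 / 2 : ℝ) * T ≤
      2 ^ Fintype.card ι * (1 - ∑ i, (1 / 2 : ℝ) ^ K i) * T := by
    refine mul_le_mul_of_nonneg_right (mul_le_mul_of_nonneg_left ?_ (by positivity)) hT0.le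
    linarith
  have h6 := h5.trans (key.trans (hb1.trans (add_le_add_right hb2 _)))
  rw [hV] at h6
  nlinarith

/-- large central values -/
theorem large_central (hq : q.Prime) (hq2 : q ≠ 2) {𝓕 : Finset (DirichletCharacter ℂ q)}
    (h𝓕 : PosFam 𝓕) (h1 : 1 ∈ 𝓕)
    {ι : Type*} [Fintype ι] [DecidableEq ι] [Nonempty ι] (P : ι → Finset ℕ) (Z : ι → ℝ) (K : ι → ℕ)
    (hZ : ∀ i, 0 < Z i)
    (hP : ∀ i, ∀ p ∈ P i, p.Prime ∧ p.Coprime q ∧ (p : ℝ) ≤ Z i)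
    (hd : ∀ i j, i ≠ j → Disjoint (P i) (P j)) (hN : ∏ i, Z i ≤ 4 * q * Real.log q ^ 2)
    (hK : ∀ i, (16 * Z i) ^ K i ≤ (((K i).factorial * (#(P i)).descFactorial (K i) : ℕ) : ℝ))
    (hbad : ∑ i, (1 / 2 : ℝ) ^ K i ≤ 1 / 2) (D : ι → ℝ) (hD0 : ∀ i, 0 ≤ D i)
    (hD : ∀ i, (∑ k ∈ range (K i + 1), ((2 * √(Z i))⁻¹ * #(P i)) ^ (K i + k)) ^ 2 ≤
      D i * (((4 * Z i) ^ (2 * K i))⁻¹ *
        (((2 * K i).factorial * (#(P i)).descFactorial (2 * K i) : ℕ) : ℝ)))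
    (hc : ∀ i, 2 * K i ≤ #(P i))
    (hcost : 24 * √q * Real.log q * ∏ i, D i ≤ #𝓕) :
    ∃ χ ∈ 𝓕, χ ≠ 1 ∧ 2 ^ Fintype.card ι / 4 - 1 ≤ ‖χ.LFunction (1 / 2)‖ := by
  have hq3 : 3 ≤ q := by
    have := hq.two_le
    omega
  have hq3' : (3 : ℝ) ≤ q := by exact_mod_cast hq3
  have hlog : 1 ≤ Real.log q := by
    rw [Real.le_log_iff_exp_le (by linarith)]
    exact (Real.exp_one_lt_d9.le.trans (by norm_num)).trans hq3'
  set y : ℝ := 4 * q * Real.log q ^ 2 with hy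
  have hy1 : 1 ≤ y := by
    rw [hy]
    nlinarith [mul_nonneg (by linarith : (0 : ℝ) ≤ q) (sq_nonneg (Real.log q)),
      mul_le_mul hq3' (one_le_pow₀ hlog (n := 2)) (by norm_num) (by linarith)]
  set N := ⌈y⌉₊ with hNdef
  have hNy : y ≤ N := Nat.le_ceil y
  have hN1 : 1 ≤ N := by
    have : (1 : ℝ) ≤ N := hy1.trans hNy
    exact_mod_cast this
  have hN2 : (N : ℝ) ≤ 9 / 4 * y := by
    have := Nat.ceil_lt_add_one (by linarith : (0 : ℝ) ≤ y)
    rw [← hNdef] at this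
    linarith
  have hN3 : 8 * √(N : ℝ) ≤ 24 * √q * Real.log q := by
    have h5 : √(N : ℝ) ≤ 3 * √q * Real.log q := by
      rw [show 3 * √q * Real.log q = √((3 * √q * Real.log q) ^ 2) by
        rw [Real.sqrt_sq (by positivity)]]
      refine Real.sqrt_le_sqrt (hN2.trans (le_of_eq ?_))
      rw [mul_pow, mul_pow, Real.sq_sqrt (by linarith), hy]
      ring
    linarith
  obtain ⟨χ, hχ, hχ1, hχ2⟩ := large h𝓕 h1 P Z K hZ hP hd (hN.trans hNy) hK hbad D hD hc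
    ((mul_le_mul_of_nonneg_right hN3 (prod_nonneg fun i _ => hD0 i)).trans hcost)
  refine ⟨χ, hχ, hχ1, ?_⟩
  have h5 := approx hq hq2 hχ1 hN1 hNy
  have h6 : ‖LN N χ‖ ≤ ‖χ.LFunction (1 / 2)‖ + ‖χ.LFunction (1 / 2) - LN N χ‖ := by
    have := norm_sub_le (χ.LFunction (1 / 2)) (χ.LFunction (1 / 2) - LN N χ)
    rwa [sub_sub_cancel] at this
  linarith

end Pool.Agent.Q28.SG
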