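import Pool.Agent.Q28.SG.Pos

/-!
# Moments of a sum of characters: the diagonal
-/

set_option autoImplicit false
set_option linter.unusedSectionVars false

namespace Pool.Agent.Q28.SG

open Finset ComplexOrder ComplexConjugate

variable {q : ℕ} [NeZero q]

lemma card_inj (P : Finset ℕ) (K : ℕ) :
    #((Fintype.piFinset fun _ : Fin K => P).filter Function.Injective) =
      (#P).descFactorial K := by
  classical
  have h1 : Fintype.card (Fin K ↪ P) = (#P).descFactorial K := by
    rw [Fintype.card_embedding_eq, Fintype.card_fin, Fintype.card_coe]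
  rw [← h1, ← Finset.card_univ]
  refine Finset.card_bij' (fun f hf => ⟨fun i => ⟨f i, ?_⟩, ?_⟩) (fun e _ => fun i => (e i : ℕ))
    ?_ ?_ ?_ ?_
  · rw [mem_filter, Fintype.mem_piFinset] at hf
    exact hf.1 i
  · rw [mem_filter] at hf
    intro i j hij
    exact hf.2 (by simpa using hij)
  · intro f _
    exact mem_univ _
  · intro e _
    rw [mem_filter, Fintype.mem_piFinset]
    exact ⟨fun i => (e i).2, fun i j hij => e.injective (Subtype.ext hij)⟩
  · intro f _
    rfl
  · intro e _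
    rfl

/-- the sum of the character values over a finite set -/
noncomputable def S (P : Finset ℕ) (χ : DirichletCharacter ℂ q) : ℂ :=
  ∑ p ∈ P, χ ((p : ℕ) : ZMod q)

lemma pos_char_nat {n : ℕ} (hn : n.Coprime q) :
    Pos (fun χ : DirichletCharacter ℂ q => χ ((n : ℕ) : ZMod q)) :=
  (Pos.char (ZMod.unitOfCoprime n hn)).congr fun χ => by rw [ZMod.coe_unitOfCoprime]

lemma S_pos {P : Finset ℕ} (hP : ∀ p ∈ P, p.Coprime q) :
    Pos (S P : DirichletCharacter ℂ q → ℂ) :=
  (Pos.sum P fun p hp => pos_char_nat (hP p hp)).congr fun _ => rfl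

lemma char_mul_conj {n : ℕ} (hn : n.Coprime q) (χ : DirichletCharacter ℂ q) :
    χ ((n : ℕ) : ZMod q) * conj (χ ((n : ℕ) : ZMod q)) = 1 := by
  rw [← ZMod.coe_unitOfCoprime n hn, conj_char, ← map_mul, ← Units.val_mul, mul_inv_cancel,
    Units.val_one, map_one]

/-- the diagonal of the `2K`-th moment -/
theorem diag {P : Finset ℕ} (hP : ∀ p ∈ P, p.Coprime q) (K : ℕ) :
    Pos (fun χ : DirichletCharacter ℂ q => S P χ ^ K * conj (S P χ) ^ K -
      ((K.factorial * (#P).descFactorial K : ℕ) : ℂ)) := by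
  classical
  set T := Fintype.piFinset fun _ : Fin K => P with hT
  set I := T.filter Function.Injective with hI
  set Φ : (Fin K → ℕ) × Equiv.Perm (Fin K) → (Fin K → ℕ) × (Fin K → ℕ) :=
    fun x => (x.1, x.1 ∘ x.2) with hΦ
  set D := (I ×ˢ (univ : Finset (Equiv.Perm (Fin K)))).image Φ with hD
  set c : (Fin K → ℕ) × (Fin K → ℕ) → DirichletCharacter ℂ q → ℂ := fun x χ =>
    (∏ i, χ ((x.1 i : ℕ) : ZMod q)) * ∏ i, conj (χ ((x.2 i : ℕ) : ZMod q)) with hc
  have hcard : #D = K.factorial * (#P).descFactorial K := by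
    rw [hD, card_image_of_injOn, card_product, hI, hT, card_inj, card_univ, Fintype.card_perm,
      Fintype.card_fin, mul_comm]
    rintro ⟨f, σ⟩ hf ⟨g, τ⟩ _ h
    rw [mem_coe, mem_product] at hf
    have hfi : Function.Injective f := (mem_filter.1 hf.1).2
    simp only [hΦ, Prod.mk.injEq] at h
    obtain ⟨h1, h2⟩ := h
    subst h1
    refine Prod.ext rfl ?_
    refine Equiv.ext fun i => hfi ?_
    exact congrFun h2 i
  have hDT : D ⊆ T ×ˢ T := by
    intro x hx
    rw [hD, mem_image] at hx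
    obtain ⟨⟨f, σ⟩, hf, rfl⟩ := hx
    rw [mem_product] at hf
    have hfT : f ∈ T := (mem_filter.1 hf.1).1
    rw [mem_product]
    refine ⟨hfT, ?_⟩
    rw [hT, Fintype.mem_piFinset] at hfT ⊢
    exact fun i => hfT _
  have hone : ∀ x ∈ D, ∀ χ : DirichletCharacter ℂ q, c x χ = 1 := by
    intro x hx χ
    rw [hD, mem_image] at hx
    obtain ⟨⟨f, σ⟩, hf, rfl⟩ := hx
    rw [mem_product] at hf
    have hfT : f ∈ T := (mem_filter.1 hf.1).1
    rw [hT, Fintype.mem_piFinset] at hfT
    simp only [hc, hΦ, Function.comp]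
    rw [Equiv.prod_comp σ (fun i => conj (χ ((f i : ℕ) : ZMod q))), ← prod_mul_distrib]
    exact prod_eq_one fun i _ => char_mul_conj (hP _ (hfT i)) χ
  have hpos : ∀ x ∈ T ×ˢ T, Pos (c x) := by
    intro x hx
    rw [mem_product, hT, Fintype.mem_piFinset, Fintype.mem_piFinset] at hx
    exact (Pos.prod _ fun i _ => pos_char_nat (hP _ (hx.1 i))).mul
      (Pos.prod _ fun i _ => (pos_char_nat (hP _ (hx.2 i))).conj)
  have hexp : ∀ χ : DirichletCharacter ℂ q, S P χ ^ K * conj (S P χ) ^ K =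
      ∑ x ∈ T ×ˢ T, c x χ := by
    intro χ
    rw [sum_product, S, map_sum, sum_pow', sum_pow', sum_mul_sum]
  refine (Pos.sum ((T ×ˢ T) \ D) fun x hx => hpos x (mem_sdiff.1 hx).1).congr fun χ => ?_
  rw [hexp, ← sum_sdiff hDT, sum_congr rfl (fun x hx => hone x hx χ), sum_const, hcard,
    nsmul_eq_mul, mul_one, add_sub_cancel_right]

end Pool.Agent.Q28.SG
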