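import Pool.Agent.Q28.SG.Par2

/-!
# Large central values in subgroups
-/

set_option autoImplicit false

namespace Pool.Agent.Q28.SG

open Finset

/-- the size needed for the parameter `l` -/
noncomputable def gl (l : ℕ) : ℝ := 100000 * l * 4 ^ l * (1 + Real.log l)

lemma le_gl (n : ℕ) : (n : ℝ) ≤ gl n := by
  rcases Nat.eq_zero_or_pos n with h | h
  · subst h
    simp [gl]
  · have h1 : (1 : ℝ) ≤ n := by exact_mod_cast h
    have h2 : 0 ≤ Real.log n := Real.log_nonneg h1
    have h3 : (1 : ℝ) ≤ 4 ^ n := one_le_pow₀ (by norm_num)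
    have h4 : (1 : ℝ) ≤ 4 ^ n * (1 + Real.log n) := by nlinarith
    rw [gl]
    nlinarith

lemma exists_param {l0 : ℕ} {X : ℝ} (h : gl l0 ≤ X) : ∃ l, l0 ≤ l ∧ gl l ≤ X ∧ X < gl (l + 1) := by
  classical
  have h1 : ∃ n, X < gl (l0 + n) := by
    obtain ⟨n, hn⟩ := exists_nat_gt X
    refine ⟨n, lt_of_lt_of_le hn (le_trans ?_ (le_gl _))⟩
    push_cast
    linarith [(Nat.cast_nonneg l0 : (0 : ℝ) ≤ l0)]
  set n := Nat.find h1 with hn
  have h2 : X < gl (l0 + n) := Nat.find_spec h1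
  have h3 : n ≠ 0 := by
    intro h0
    rw [h0, add_zero] at h2
    linarith
  obtain ⟨m, hm⟩ := Nat.exists_eq_succ_of_ne_zero h3
  refine ⟨l0 + m, by omega, ?_, ?_⟩
  · have := Nat.find_min h1 (m := m) (by omega)
    push Not at this
    exact this
  · rw [hm] at h2
    exact h2

lemma numeric {l : ℕ} (hl : 30 ≤ l) {X : ℝ} (h1 : gl l ≤ X) (h2 : X < gl (l + 1)) :
    Real.exp (√(X * Real.log (Real.log X) / Real.log X) / 10000) ≤ 2 ^ nb l / 4 - 1 := by
  have hl1 : (30 : ℝ) ≤ l := by exact_mod_cast hl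
  have hl0 : (0 : ℝ) < l := by linarith
  have hL3 : 3 ≤ Real.log l := by
    rw [Real.le_log_iff_exp_le hl0]
    have e1 : Real.exp 3 = Real.exp 1 ^ 3 := by rw [← Real.exp_nat_mul]; norm_num
    have e2 := Real.exp_one_lt_d9
    have e3 : Real.exp 1 ^ 3 ≤ 2.72 ^ 3 :=
      pow_le_pow_left₀ (Real.exp_pos 1).le (by linarith) 3
    rw [e1]
    refine e3.trans (le_trans ?_ hl1)
    norm_num
  have h4 : (1 : ℝ) ≤ 4 ^ l := one_le_pow₀ (by norm_num)
  have h2l : (l : ℝ) ≤ 2 ^ l := by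
    have : l ≤ 2 ^ l := Nat.lt_two_pow_self.le
    exact_mod_cast this
  set W : ℝ := 2 ^ l * Real.log l with hW
  have hW1 : 3 * (l : ℝ) ≤ W := by
    calc 3 * (l : ℝ) ≤ 3 * 2 ^ l := by linarith
      _ = 2 ^ l * 3 := by ring
      _ ≤ W := mul_le_mul_of_nonneg_left hL3 (by positivity)
  have hnb : W / 2 ≤ nb l := by
    have e1 := le_nb l
    have e2 : Real.log l ≤ Real.log (l + 1) := Real.log_le_log hl0 (by linarith)
    have e3 : W ≤ 2 ^ l * Real.log (l + 1) := mul_le_mul_of_nonneg_left e2 (by positivity)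
    linarith
  -- upper bound for X
  have hX : X ≤ 1600000 * l * 4 ^ l * Real.log l := by
    refine h2.le.trans ?_
    rw [gl]
    push_cast
    have e1 : Real.log ((l : ℝ) + 1) ≤ Real.log l + 0.7 := by
      have e2 : Real.log ((l : ℝ) + 1) ≤ Real.log (2 * l) :=
        Real.log_le_log (by linarith) (by linarith)
      rw [Real.log_mul (by norm_num) hl0.ne'] at e2
      linarith [Real.log_two_lt_d9]
    have e3 : 1 + Real.log ((l : ℝ) + 1) ≤ 2 * Real.log l := by linarith
    have e4 : 0 ≤ 1 + Real.log ((l : ℝ) + 1) := by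
      have := Real.log_nonneg (x := (l : ℝ) + 1) (by linarith)
      linarith
    calc 100000 * ((l : ℝ) + 1) * 4 ^ (l + 1) * (1 + Real.log ((l : ℝ) + 1))
        ≤ 100000 * (2 * l) * 4 ^ (l + 1) * (2 * Real.log l) := by
          gcongr
          linarith
      _ = 1600000 * l * 4 ^ l * Real.log l := by ring
  have hX1 : Real.exp l ≤ X := by
    refine le_trans ?_ h1
    rw [gl]
    calc Real.exp l = Real.exp 1 ^ l := by rw [← Real.exp_nat_mul, mul_one]
      _ ≤ 4 ^ l := pow_le_pow_left₀ (Real.exp_pos 1).le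
          (Real.exp_one_lt_d9.le.trans (by norm_num)) l
      _ = 1 * 4 ^ l * 1 := by ring
      _ ≤ (100000 * l) * 4 ^ l * (1 + Real.log l) := by
          gcongr
          · linarith
          · linarith
  have hX0 : 0 < X := lt_of_lt_of_le (Real.exp_pos _) hX1
  have hlX : (l : ℝ) ≤ Real.log X := by
    rw [Real.le_log_iff_exp_le hX0]
    exact hX1
  have hX3 : Real.log X ≤ 3 * l := by
    rw [Real.log_le_iff_le_exp hX0]
    refine hX.trans ?_
    have e1 : Real.log l ≤ l := (Real.log_le_sub_one_of_pos hl0).trans (by linarith)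
    have e2 : (l : ℝ) * l ≤ 2 ^ l := by
      have : ∀ n : ℕ, 4 ≤ n → n * n ≤ 2 ^ n := by
        intro n hn
        induction n, hn using Nat.le_induction with
        | base => norm_num
        | succ n hn ih =>
          rw [pow_succ]
          nlinarith
      exact_mod_cast this l (by omega)
    have e3 : (20 : ℝ) ^ l ≤ Real.exp (3 * l) := by
      have e4 : (20 : ℝ) ≤ Real.exp 3 := by
        have e5 : Real.exp 3 = Real.exp 1 ^ 3 := by rw [← Real.exp_nat_mul]; norm_num
        rw [e5]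
        have e6 := Real.exp_one_gt_d9
        have e7 : (2.718 : ℝ) ^ 3 ≤ Real.exp 1 ^ 3 := pow_le_pow_left₀ (by norm_num) (by linarith) 3
        refine le_trans ?_ e7
        norm_num
      calc (20 : ℝ) ^ l ≤ Real.exp 3 ^ l := pow_le_pow_left₀ (by norm_num) e4 l
        _ = Real.exp (3 * l) := by rw [← Real.exp_nat_mul]; congr 1; ring
    have e8 : (1600000 : ℝ) ≤ (5 / 2) ^ l := by
      calc (1600000 : ℝ) ≤ (5 / 2) ^ 30 := by norm_num
        _ ≤ (5 / 2) ^ l := pow_le_pow_right₀ (by norm_num) hl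
    calc 1600000 * l * 4 ^ l * Real.log l ≤ 1600000 * l * 4 ^ l * l := by gcongr
      _ = 1600000 * (4 ^ l * ((l : ℝ) * l)) := by ring
      _ ≤ (5 / 2) ^ l * (4 ^ l * 2 ^ l) := by gcongr
      _ = 20 ^ l := by
          rw [← mul_pow, ← mul_pow]
          norm_num
      _ ≤ Real.exp (3 * l) := e3
  have hllX : Real.log (Real.log X) ≤ 2 * Real.log l := by
    have e1 : Real.log (Real.log X) ≤ Real.log (3 * l) :=
      Real.log_le_log (by linarith) hX3
    rw [Real.log_mul (by norm_num) hl0.ne'] at e1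
    have e2 : Real.log 3 ≤ 2 := by
      rw [Real.log_le_iff_le_exp (by norm_num)]
      have e3 := Real.add_one_le_exp (2 : ℝ)
      linarith
    linarith
  have hll0 : 0 ≤ Real.log (Real.log X) := Real.log_nonneg (by linarith)
  have hmain : X * Real.log (Real.log X) / Real.log X ≤ (1800 * W) ^ 2 := by
    rw [div_le_iff₀ (by linarith)]
    calc X * Real.log (Real.log X)
        ≤ (1600000 * l * 4 ^ l * Real.log l) * (2 * Real.log l) :=
          mul_le_mul hX hllX hll0 (by positivity)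
      _ = 3200000 * (4 ^ l * Real.log l ^ 2) * l := by ring
      _ ≤ (1800 ^ 2) * (4 ^ l * Real.log l ^ 2) * Real.log X := by
          have : 0 ≤ 4 ^ l * Real.log l ^ 2 := by positivity
          gcongr
          norm_num
      _ = (1800 * W) ^ 2 * Real.log X := by
          rw [hW, mul_pow, mul_pow, ← pow_mul 2 l 2, mul_comm l 2, pow_mul 2 2 l]
          norm_num
  have hW0 : 0 ≤ W := by linarith
  have hsq : √(X * Real.log (Real.log X) / Real.log X) ≤ 1800 * W := by
    rw [Real.sqrt_le_left (by positivity)]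
    exact hmain
  -- conclusion
  have h5 : Real.exp (0.34 * W) ≤ 2 ^ nb l := by
    have e1 : (2 : ℝ) ^ nb l = Real.exp (Real.log 2 * nb l) := by
      rw [Real.exp_mul, Real.exp_log (by norm_num), Real.rpow_natCast]
    rw [e1]
    refine Real.exp_le_exp.2 ?_
    have e2 := Real.log_two_gt_d9
    have e3 : 0.68 * (W / 2) ≤ Real.log 2 * nb l :=
      mul_le_mul (by linarith) hnb (by positivity) (by linarith)
    linarith
  have h6 : Real.exp (√(X * Real.log (Real.log X) / Real.log X) / 10000) ≤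
      Real.exp (0.18 * W) := Real.exp_le_exp.2 (by linarith)
  have h7 : Real.exp (0.34 * W) = Real.exp (0.16 * W) * Real.exp (0.18 * W) := by
    rw [← Real.exp_add]
    congr 1
    ring
  have h8 : 8 ≤ Real.exp (0.16 * W) := by
    have := Real.add_one_le_exp (0.16 * W)
    linarith
  have h9 : 1 ≤ Real.exp (0.18 * W) := Real.one_le_exp (by positivity)
  have h10 : 8 * Real.exp (0.18 * W) ≤ Real.exp (0.16 * W) * Real.exp (0.18 * W) :=
    mul_le_mul_of_nonneg_right h8 (by positivity)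
  linarith

/-- large central values in families of positive type -/
theorem fam : ∃ C : ℝ, ∀ (q : ℕ) [NeZero q], q.Prime →
    ∀ 𝓕 : Finset (DirichletCharacter ℂ q), PosFam 𝓕 → 1 ∈ 𝓕 → ∀ Q : ℝ, C ≤ Q →
      C * Real.log q ^ 2 ≤ Q → Q * √q ≤ #𝓕 →
      ∃ χ ∈ 𝓕, χ ≠ 1 ∧ Real.exp (√(Real.log Q * Real.log (Real.log (Real.log Q)) /
        Real.log (Real.log Q)) / 10000) ≤ ‖χ.LFunction (1 / 2)‖ := by
  obtain ⟨l0, h0⟩ := block
  refine ⟨max 576 (Real.exp (gl (l0 + 30))), fun q _ hq 𝓕 h𝓕 h1 Q hC hCq hQ => ?_⟩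
  have hQ1 : gl (l0 + 30) ≤ Real.log Q := by
    have h2 : Real.exp (gl (l0 + 30)) ≤ Q := (le_max_right _ _).trans hC
    rwa [Real.le_log_iff_exp_le (lt_of_lt_of_le (Real.exp_pos _) h2)]
  obtain ⟨l, hl, h2, h3⟩ := exists_param hQ1
  have h4 : 576 * Real.log q ^ 2 ≤ Q :=
    (mul_le_mul_of_nonneg_right (le_max_left _ _) (sq_nonneg _)).trans hCq
  obtain ⟨χ, hχ, hχ1, hχ2⟩ := h0 l (by omega) q hq 𝓕 h𝓕 h1 Q h2 hQ h4
  exact ⟨χ, hχ, hχ1, (numeric (by omega) h2 h3).trans hχ2⟩

end Pool.Agent.Q28.SG
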