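import Pool.Agent.Q28.SG.Res

/-!
# The truncated `L`-series and the lower bound for the resonator
-/

set_option autoImplicit false
set_option linter.unusedSectionVars false

namespace Pool.Agent.Q28.SG

open Finset ComplexOrder ComplexConjugate

variable {q : ℕ} [NeZero q]

/-- the truncated `L`-series at `1/2` -/
noncomputable def LN (N : ℕ) (χ : DirichletCharacter ℂ q) : ℂ :=
  ∑ n ∈ Icc 1 N, (((√(n : ℝ))⁻¹ : ℝ) : ℂ) * χ ((n : ℕ) : ZMod q)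

lemma pos_nat (n : ℕ) {a : ℝ} (ha : 0 ≤ a) :
    Pos (fun χ : DirichletCharacter ℂ q => (a : ℂ) * χ ((n : ℕ) : ZMod q)) := by
  by_cases h : n.Coprime q
  · exact (pos_char_nat h).smul ha
  · refine Pos.zero.congr fun χ => ?_
    rw [MulChar.map_nonunit χ (by rwa [ZMod.isUnit_iff_coprime]), mul_zero]

theorem LN_ge {ι : Type*} [Fintype ι] [DecidableEq ι] (P : ι → Finset ℕ) (Z : ι → ℝ)
    (hP : ∀ i, ∀ p ∈ P i, p.Prime ∧ (p : ℝ) ≤ Z i)
    (hd : ∀ i j, i ≠ j → Disjoint (P i) (P j)) {N : ℕ} (hN : ∏ i, Z i ≤ N) :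
    PLe (fun χ : DirichletCharacter ℂ q =>
      ∏ i, (2 * ((((2 * √(Z i))⁻¹ : ℝ) : ℂ) * S (P i) χ))) (LN N) := by
  classical
  set D := (Fintype.piFinset P).image (fun x => ∏ i, x i) with hD
  set c : ℝ := ∏ i, (√(Z i))⁻¹ with hc
  have hc0 : 0 ≤ c := prod_nonneg fun i _ => by positivity
  have hinj : Set.InjOn (fun x : ι → ℕ => ∏ i, x i) (Fintype.piFinset P : Finset (ι → ℕ)) := by
    intro x hx y hy hxy
    rw [mem_coe, Fintype.mem_piFinset] at hx hy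
    replace hxy : ∏ i, x i = ∏ i, y i := hxy
    funext i
    have h1 : x i ∣ ∏ j, y j := by
      rw [← hxy]
      exact dvd_prod_of_mem _ (mem_univ i)
    obtain ⟨j, _, hj⟩ := ((hP i _ (hx i)).1.prime.dvd_finsetProd_iff _).1 h1
    have h2 : x i = y j := (Nat.prime_dvd_prime_iff_eq (hP i _ (hx i)).1 (hP j _ (hy j)).1).1 hj
    by_cases hij : i = j
    · subst hij
      exact h2
    · exact absurd (h2 ▸ hy j) (disjoint_left.1 (hd i j hij) (hx i))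
  have hDn : ∀ n ∈ D, 1 ≤ n ∧ (n : ℝ) ≤ ∏ i, Z i := by
    intro n hn
    rw [hD, mem_image] at hn
    obtain ⟨x, hx, rfl⟩ := hn
    rw [Fintype.mem_piFinset] at hx
    refine ⟨Finset.prod_pos fun i _ => (hP i _ (hx i)).1.pos, ?_⟩
    push_cast
    exact prod_le_prod (fun i _ => by positivity) fun i _ => (hP i _ (hx i)).2
  have hDc : ∀ n ∈ D, 0 ≤ (√(n : ℝ))⁻¹ - c := by
    intro n hn
    have h1 := hDn n hn
    rw [hD, mem_image] at hn
    obtain ⟨x, hx, rfl⟩ := hn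
    rw [Fintype.mem_piFinset] at hx
    have h3 : (√((∏ i, x i : ℕ) : ℝ))⁻¹ = ∏ i, (√(x i : ℝ))⁻¹ := by
      push_cast
      rw [Real.sqrt_prod _ (fun i _ => by positivity), prod_inv_distrib]
    rw [h3, sub_nonneg, hc]
    refine prod_le_prod (fun i _ => by positivity) fun i _ => ?_
    have h4 := hP i _ (hx i)
    have h5 : (0 : ℝ) < x i := by exact_mod_cast h4.1.pos
    exact inv_anti₀ (Real.sqrt_pos.2 h5) (Real.sqrt_le_sqrt h4.2)
  have hsub : D ⊆ Icc 1 N := by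
    intro n hn
    have h1 := hDn n hn
    rw [mem_Icc]
    exact ⟨h1.1, by exact_mod_cast h1.2.trans hN⟩
  have h1 : Pos (fun χ : DirichletCharacter ℂ q =>
      ∑ n ∈ Icc 1 N \ D, (((√(n : ℝ))⁻¹ : ℝ) : ℂ) * χ ((n : ℕ) : ZMod q)) :=
    Pos.sum _ fun n _ => pos_nat n (by positivity)
  have h2 : Pos (fun χ : DirichletCharacter ℂ q =>
      ∑ n ∈ D, (((√(n : ℝ))⁻¹ - c : ℝ) : ℂ) * χ ((n : ℕ) : ZMod q)) :=
    Pos.sum _ fun n hn => pos_nat n (hDc n hn)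
  refine (h1.add h2).congr fun χ => ?_
  beta_reduce
  have e1 : ∏ i, (2 * ((((2 * √(Z i))⁻¹ : ℝ) : ℂ) * S (P i) χ)) =
      ∑ n ∈ D, (c : ℂ) * χ ((n : ℕ) : ZMod q) := by
    have e2 : ∀ i, (2 * ((((2 * √(Z i))⁻¹ : ℝ) : ℂ) * S (P i) χ)) =
        ∑ p ∈ P i, (((√(Z i))⁻¹ : ℝ) : ℂ) * χ ((p : ℕ) : ZMod q) := by
      intro i
      rw [← mul_sum, S, ← mul_assoc]
      congr 1
      push_cast
      rw [mul_inv, ← mul_assoc, mul_inv_cancel₀ two_ne_zero, one_mul]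
    simp_rw [e2]
    rw [prod_univ_sum, hD, sum_image hinj]
    refine sum_congr rfl fun x _ => ?_
    rw [prod_mul_distrib, hc]
    push_cast
    rw [map_prod]
  rw [e1, LN, ← sum_sdiff hsub, add_sub_assoc, ← sum_sub_distrib]
  congr 1
  refine sum_congr rfl fun n _ => ?_
  push_cast
  ring

/-- lower bound for the mean square of the resonator -/
theorem lower {𝓕 : Finset (DirichletCharacter ℂ q)} (h𝓕 : PosFam 𝓕) {ι : Type*}
    [DecidableEq ι] (B : Finset ι) {s : ι → DirichletCharacter ℂ q → ℂ} (K : ι → ℕ) (c : ι → ℝ)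
    (hs : ∀ b ∈ B, Pos (s b)) (hc : ∀ b ∈ B, 0 ≤ c b)
    (hA : ∀ b ∈ B, PLe (fun _ => ((c b : ℝ) : ℂ))
      (fun χ => s b χ ^ (2 * K b) * conj (s b χ) ^ (2 * K b))) :
    (#𝓕 : ℝ) * ∏ b ∈ B, c b ≤ ∑ χ ∈ 𝓕, ‖∏ b ∈ B, Rb (s b) (K b) χ‖ ^ 2 := by
  have h1 := PLe.prod B (F := fun b _ => ((c b : ℝ) : ℂ))
    (G := fun b χ => Rb (s b) (K b) χ * conj (Rb (s b) (K b) χ))
    (fun b hb => (hA b hb).trans (top_sq_le (hs b hb) (K b))) (fun b hb => Pos.const (hc b hb))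
  have h2 := h𝓕.mono h1
  have e1 : (∑ χ ∈ 𝓕, ∏ b ∈ B, ((c b : ℝ) : ℂ)).re = (#𝓕 : ℝ) * ∏ b ∈ B, c b := by
    rw [sum_const, nsmul_eq_mul, ← Complex.ofReal_prod]
    rw [show ((#𝓕 : ℂ)) = (((#𝓕 : ℝ)) : ℂ) by push_cast; rfl, ← Complex.ofReal_mul,
      Complex.ofReal_re]
  have e2 : (∑ χ ∈ 𝓕, ∏ b ∈ B, (Rb (s b) (K b) χ * conj (Rb (s b) (K b) χ))).re =
      ∑ χ ∈ 𝓕, ‖∏ b ∈ B, Rb (s b) (K b) χ‖ ^ 2 := by
    rw [← normSq_re]
    refine congrArg Complex.re (sum_congr rfl fun χ _ => ?_)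
    rw [prod_mul_distrib, map_prod]
  rw [e1, e2] at h2
  exact h2

end Pool.Agent.Q28.SG
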