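import Mathlib

/-!
# Primes in dyadic intervals, splitting into blocks
-/

set_option autoImplicit false

namespace Pool.Agent.Q28.SG

open Finset

/-- the primes in `(Y, 4 Y]` -/
def PI (Y : ℕ) : Finset ℕ := (Ioc Y (4 * Y)).filter Nat.Prime

lemma theta_diff (Y : ℕ) : Chebyshev.theta ((4 * Y : ℕ) : ℝ) - Chebyshev.theta (Y : ℝ) ≤
    #(PI Y) * Real.log (4 * Y) := by
  rw [Chebyshev.theta_eq_sum_Icc, Chebyshev.theta_eq_sum_Icc, Nat.floor_natCast, Nat.floor_natCast]
  have h1 : (Icc 0 (4 * Y)).filter Nat.Prime = (Icc 0 Y).filter Nat.Prime ∪ PI Y := by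
    ext p
    simp only [PI, mem_union, mem_filter, mem_Icc, mem_Ioc]
    constructor
    · rintro ⟨h, hp⟩
      by_cases h' : p ≤ Y
      · exact Or.inl ⟨⟨by omega, h'⟩, hp⟩
      · exact Or.inr ⟨⟨by omega, h.2⟩, hp⟩
    · rintro (⟨h, hp⟩ | ⟨h, hp⟩)
      · exact ⟨⟨by omega, by omega⟩, hp⟩
      · exact ⟨⟨by omega, h.2⟩, hp⟩
  have h2 : Disjoint ((Icc 0 Y).filter Nat.Prime) (PI Y) := by
    rw [disjoint_left]
    intro p hp hp'
    simp only [PI, mem_filter, mem_Icc, mem_Ioc] at hp hp'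
    omega
  rw [h1, sum_union h2, add_sub_cancel_left]
  calc ∑ p ∈ PI Y, Real.log p ≤ ∑ p ∈ PI Y, Real.log (4 * Y) := by
        refine sum_le_sum fun p hp => ?_
        simp only [PI, mem_filter, mem_Ioc] at hp
        refine Real.log_le_log (by exact_mod_cast hp.2.pos) ?_
        exact_mod_cast hp.1.2
    _ = #(PI Y) * Real.log (4 * Y) := by rw [sum_const, nsmul_eq_mul]

theorem card_PI : ∃ Y0 : ℕ, ∀ Y : ℕ, Y0 ≤ Y → (Y : ℝ) ≤ #(PI Y) * Real.log (4 * Y) := by
  have h1 : Filter.Tendsto (fun x : ℝ => Real.log x / x ^ (1 / 4 : ℝ)) Filter.atTop (nhds 0) :=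
    (isLittleO_log_rpow_atTop (by norm_num)).tendsto_div_nhds_zero
  have h2 : ∀ᶠ x : ℝ in Filter.atTop, Real.log x / x ^ (1 / 4 : ℝ) < 1 / 1000 :=
    h1.eventually_lt_const (by norm_num)
  have h3 : ∀ᶠ x : ℝ in Filter.atTop, (10 : ℝ) ^ 12 ≤ x := Filter.eventually_ge_atTop _
  obtain ⟨x0, hx0⟩ := Filter.eventually_atTop.1 (h2.and h3)
  refine ⟨⌈x0⌉₊, fun Y hY => ?_⟩
  have hYx : x0 ≤ Y := (Nat.le_ceil x0).trans (by exact_mod_cast hY)
  have hY4 : x0 ≤ 4 * (Y : ℝ) := by linarith [(Nat.cast_nonneg Y : (0 : ℝ) ≤ Y)]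
  obtain ⟨-, hb1⟩ := hx0 Y hYx
  obtain ⟨ha, hb⟩ := hx0 (4 * Y) hY4
  set x : ℝ := 4 * Y with hx
  have hx1 : 0 < x := by linarith
  have hlog : Real.log x ≤ x ^ (1 / 4 : ℝ) / 1000 := by
    rw [div_lt_iff₀ (by positivity)] at ha
    linarith
  have hlog2 : 0 ≤ Real.log x := Real.log_nonneg (by linarith)
  have h5 : √x * Real.log x ≤ x / 1000 := by
    have e1 : √x * x ^ (1 / 4 : ℝ) ≤ x := by
      rw [Real.sqrt_eq_rpow, ← Real.rpow_add hx1]
      calc x ^ (1 / 2 + 1 / 4 : ℝ) ≤ x ^ (1 : ℝ) :=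
            Real.rpow_le_rpow_of_exponent_le (by linarith) (by norm_num)
        _ = x := Real.rpow_one x
    calc √x * Real.log x ≤ √x * (x ^ (1 / 4 : ℝ) / 1000) :=
          mul_le_mul_of_nonneg_left hlog (Real.sqrt_nonneg _)
      _ = √x * x ^ (1 / 4 : ℝ) / 1000 := by ring
      _ ≤ x / 1000 := by linarith
  have h6 : Real.log (x + 2) ≤ x / 1000 := by
    have e1 : Real.log (x + 2) ≤ Real.log (x ^ 2) := by
      refine Real.log_le_log (by linarith) ?_
      nlinarith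
    rw [Real.log_pow] at e1
    have e2 : (1000 : ℝ) ≤ √x := by
      refine Real.le_sqrt_of_sq_le ?_
      linarith
    have e3 : 1000 * Real.log x ≤ √x * Real.log x := mul_le_mul_of_nonneg_right e2 hlog2
    push_cast at e1
    linarith
  have h7 := Chebyshev.theta_ge' (x := x) (by linarith)
  have h8 := Chebyshev.theta_le_log4_mul_x (x := (Y : ℝ)) (Nat.cast_nonneg Y)
  have h9 := theta_diff Y
  have h10 : ((4 * Y : ℕ) : ℝ) = x := by push_cast; rfl
  rw [h10] at h9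
  have h11 : Real.log 4 = 2 * Real.log 2 := by
    rw [show (4 : ℝ) = 2 ^ 2 by norm_num, Real.log_pow]
    norm_num
  rw [h11] at h8
  have h12 := Real.log_two_gt_d9
  have h13 := Real.log_two_lt_d9
  have h14 : (Y : ℝ) = x / 4 := by rw [hx]; ring
  refine le_trans ?_ h9
  have h15 : x * 0.6931471803 ≤ x * Real.log 2 := mul_le_mul_of_nonneg_left h12.le hx1.le
  have h16 : 2 * Real.log 2 * (Y : ℝ) = x * Real.log 2 / 2 := by rw [h14]; ring
  have h17 : (x - 1) * Real.log 2 = x * Real.log 2 - Real.log 2 := by ring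
  have h18 : 2 * √x * Real.log x = 2 * (√x * Real.log x) := by ring
  rw [h16] at h8
  rw [h17, h18] at h7
  linarith

lemma split (b s : ℕ) : ∀ U : Finset ℕ, b * s ≤ #U → ∃ P : Fin b → Finset ℕ,
    (∀ i, P i ⊆ U ∧ #(P i) = s) ∧ ∀ i j, i ≠ j → Disjoint (P i) (P j) := by
  induction b with
  | zero => exact fun U _ => ⟨fun i => i.elim0, fun i => i.elim0, fun i => i.elim0⟩
  | succ b ih =>
    intro U hU
    obtain ⟨T, hT, hTs⟩ := exists_subset_card_eq (s := U) (n := s) (by nlinarith)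
    have h1 : b * s ≤ #(U \ T) := by
      rw [card_sdiff_of_subset hT, hTs]
      have : (b + 1) * s = b * s + s := by ring
      omega
    obtain ⟨P, hP, hd⟩ := ih _ h1
    refine ⟨Fin.cons T P, ?_, ?_⟩
    · intro i
      refine Fin.cases ?_ (fun i => ?_) i
      · simp only [Fin.cons_zero]
        exact ⟨hT, hTs⟩
      · simp only [Fin.cons_succ]
        exact ⟨(hP i).1.trans sdiff_subset, (hP i).2⟩
    · have h2 : ∀ i, Disjoint T (P i) := fun i =>
        (disjoint_sdiff (s := T) (t := U)).mono_right (hP i).1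
      intro i j
      refine Fin.cases (fun h => ?_) (fun i h => ?_) i
      · revert h
        refine Fin.cases (fun h => absurd rfl h) (fun j _ => ?_) j
        simp only [Fin.cons_zero, Fin.cons_succ]
        exact h2 j
      · revert h
        refine Fin.cases (fun _ => ?_) (fun j h => ?_) j
        · simp only [Fin.cons_zero, Fin.cons_succ]
          exact (h2 i).symm
        · simp only [Fin.cons_succ]
          exact hd i j fun e => h (by rw [e])

/-- lower bound for factorials -/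
lemma fact_desc {K s : ℕ} (h : 2 * K ≤ s) :
    ((K : ℝ) * s / 6) ^ K ≤ ((K.factorial * s.descFactorial K : ℕ) : ℝ) := by
  have h1 : ((K : ℝ) / 3) ^ K ≤ K.factorial := by
    have h2 := Real.pow_div_factorial_le_exp (x := (K : ℝ)) (Nat.cast_nonneg K) K
    have h3 : Real.exp K ≤ 3 ^ K := by
      rw [← Real.exp_one_pow]
      exact pow_le_pow_left₀ (Real.exp_pos 1).le (Real.exp_one_lt_d9.le.trans (by norm_num)) K
    have h4 : (0 : ℝ) < K.factorial := by exact_mod_cast Nat.factorial_pos K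
    rw [div_le_iff₀ h4] at h2
    rw [div_pow, div_le_iff₀ (by positivity)]
    calc (K : ℝ) ^ K ≤ Real.exp K * K.factorial := h2
      _ ≤ 3 ^ K * K.factorial := mul_le_mul_of_nonneg_right h3 h4.le
      _ = K.factorial * 3 ^ K := mul_comm _ _
  have h2 : ((s : ℝ) / 2) ^ K ≤ s.descFactorial K := by
    have h3 := Nat.pow_sub_le_descFactorial s K
    have h4 : ((s : ℝ) / 2) ≤ ((s + 1 - K : ℕ) : ℝ) := by
      rw [div_le_iff₀ (by norm_num)]
      have : s ≤ (s + 1 - K) * 2 := by omega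
      exact_mod_cast this
    calc ((s : ℝ) / 2) ^ K ≤ ((s + 1 - K : ℕ) : ℝ) ^ K := pow_le_pow_left₀ (by positivity) h4 K
      _ ≤ s.descFactorial K := by exact_mod_cast h3
  calc ((K : ℝ) * s / 6) ^ K = ((K : ℝ) / 3) ^ K * ((s : ℝ) / 2) ^ K := by
        rw [← mul_pow]
        congr 1
        ring
    _ ≤ K.factorial * s.descFactorial K := mul_le_mul h1 h2 (by positivity) (by positivity)
    _ = _ := by push_cast; ring

/-- the cost of one block -/
lemma cost {K s : ℕ} {Z : ℝ} (hZ : 0 < Z) (h : 4 * K ≤ s) (hK : 1 ≤ K) (hs : 2 * √Z ≤ s) :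
    (∑ k ∈ range (K + 1), ((2 * √Z)⁻¹ * s) ^ (K + k)) ^ 2 ≤
      (6 * (s : ℝ) / K) ^ (2 * K) * (((4 * Z) ^ (2 * K))⁻¹ *
        (((2 * K).factorial * s.descFactorial (2 * K) : ℕ) : ℝ)) := by
  have hZ2 : 0 < 2 * √Z := by positivity
  have hK0 : (0 : ℝ) < K := by exact_mod_cast hK
  set t : ℝ := (2 * √Z)⁻¹ * s with ht
  have ht1 : 1 ≤ t := by
    rw [ht, inv_mul_eq_div, one_le_div hZ2]
    exact hs
  have h1 : ∑ k ∈ range (K + 1), t ^ (K + k) ≤ 2 ^ K * t ^ (2 * K) := by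
    calc ∑ k ∈ range (K + 1), t ^ (K + k) ≤ ∑ k ∈ range (K + 1), t ^ (2 * K) := by
          refine sum_le_sum fun k hk => pow_le_pow_right₀ ht1 ?_
          rw [mem_range] at hk
          omega
      _ = ((K + 1 : ℕ) : ℝ) * t ^ (2 * K) := by rw [sum_const, card_range, nsmul_eq_mul]
      _ ≤ 2 ^ K * t ^ (2 * K) := by
          refine mul_le_mul_of_nonneg_right ?_ (by positivity)
          have : K + 1 ≤ 2 ^ K := Nat.lt_two_pow_self
          exact_mod_cast this
  have h2 : (∑ k ∈ range (K + 1), t ^ (K + k)) ^ 2 ≤ (2 ^ K * t ^ (2 * K)) ^ 2 :=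
    pow_le_pow_left₀ (sum_nonneg fun k _ => by positivity) h1 2
  refine h2.trans ?_
  have h3 := fact_desc (K := 2 * K) (s := s) (by omega)
  have h4 : t ^ 2 = (s : ℝ) ^ 2 / (4 * Z) := by
    rw [ht, mul_pow, inv_pow, mul_pow, Real.sq_sqrt hZ.le]
    rw [inv_mul_eq_div]
    norm_num
  calc (2 ^ K * t ^ (2 * K)) ^ 2 = (2 * t ^ 2) ^ (2 * K) := by
        rw [mul_pow 2 (t ^ 2), ← pow_mul, mul_pow, ← pow_mul, ← pow_mul]
        congr 2 <;> ring
    _ = (6 * (s : ℝ) / K) ^ (2 * K) * (((4 * Z) ^ (2 * K))⁻¹ *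
        (((2 * K : ℕ) : ℝ) * s / 6) ^ (2 * K)) := by
        rw [← inv_pow, ← mul_pow, ← mul_pow]
        congr 1
        rw [h4]
        push_cast
        field_simp
    _ ≤ _ := by
        refine mul_le_mul_of_nonneg_left (mul_le_mul_of_nonneg_left h3 ?_) (by positivity)
        positivity

end Pool.Agent.Q28.SG
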