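import Pool.Agent.Q28.SG.Asm
import Pool.Agent.Q28.SG.Par1

/-!
# The choice of the blocks
-/

set_option autoImplicit false
set_option linter.unusedSectionVars false

namespace Pool.Agent.Q28.SG

open Finset ComplexOrder ComplexConjugate

/-- the scale of the `j`-th family of blocks -/
def Yn (l j : ℕ) : ℕ := 4 ^ (j + l + 9) * l ^ 2

/-- the number of blocks of the `j`-th family -/
def bn (l j : ℕ) : ℕ := 2 ^ l / (j + 1)

/-- the number of primes in such a block -/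
def sn (l j : ℕ) : ℕ := 4 ^ (j + 8) * (j + 1) * l * 2 ^ l

/-- the exponent of such a block -/
def Kn (l j : ℕ) : ℕ := 1536 * l * (bn l j + 1)

lemma two_pow_sq (l : ℕ) : 2 ^ l * 2 ^ l = 4 ^ l := by
  rw [← mul_pow]
  norm_num

lemma bn_mul (l j : ℕ) : bn l j * (j + 1) ≤ 2 ^ l := Nat.div_mul_le_self _ _

lemma lt_bn_mul (l j : ℕ) : 2 ^ l ≤ (bn l j + 1) * (j + 1) := by
  have h := Nat.lt_div_mul_add (a := 2 ^ l) (b := j + 1) (by omega)
  rw [bn]
  nlinarith

lemma bn_sn (l j : ℕ) : bn l j * sn l j ≤ 4 ^ (j + l + 8) * l := by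
  have h := bn_mul l j
  calc bn l j * sn l j = (bn l j * (j + 1)) * (4 ^ (j + 8) * l * 2 ^ l) := by rw [sn]; ring
    _ ≤ 2 ^ l * (4 ^ (j + 8) * l * 2 ^ l) := Nat.mul_le_mul_right _ h
    _ = (2 ^ l * 2 ^ l) * (4 ^ (j + 8) * l) := by ring
    _ = 4 ^ (j + l + 8) * l := by rw [two_pow_sq]; ring

lemma Kn_sn (l j : ℕ) : 96 * (4 * Yn l j) ≤ Kn l j * sn l j := by
  have h := lt_bn_mul l j
  calc 96 * (4 * Yn l j) = 1536 * 4 ^ (j + 8) * l ^ 2 * (2 ^ l * 2 ^ l) := by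
        rw [Yn, two_pow_sq]
        ring
    _ ≤ 1536 * 4 ^ (j + 8) * l ^ 2 * (2 ^ l * ((bn l j + 1) * (j + 1))) := by gcongr
    _ = Kn l j * sn l j := by rw [Kn, sn]; ring

lemma Kn_mul_le {l j : ℕ} (hj : j < l) : Kn l j * (j + 1) ≤ 3072 * l * 2 ^ l := by
  have h1 := bn_mul l j
  have h2 : j + 1 ≤ 2 ^ l := by
    have : l < 2 ^ l := Nat.lt_two_pow_self
    omega
  calc Kn l j * (j + 1) = 1536 * l * (bn l j * (j + 1) + (j + 1)) := by rw [Kn]; ring
    _ ≤ 1536 * l * (2 ^ l + 2 ^ l) := by gcongr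
    _ = 3072 * l * 2 ^ l := by ring

lemma four_Kn {l j : ℕ} (hj : j < l) : 4 * Kn l j ≤ sn l j := by
  have h1 := Kn_mul_le hj
  have h2 : 1 ≤ 4 ^ j := Nat.one_le_pow _ _ (by norm_num)
  calc 4 * Kn l j ≤ 4 * (Kn l j * (j + 1)) := by nlinarith
    _ ≤ 4 * (3072 * l * 2 ^ l) := Nat.mul_le_mul_left _ h1
    _ ≤ 65536 * (l * 2 ^ l) := by nlinarith
    _ = 1 * (65536 * 1 * l * 2 ^ l) := by ring
    _ ≤ 4 ^ j * (65536 * (j + 1) * l * 2 ^ l) := by gcongr; omega
    _ = sn l j := by rw [sn, pow_add]; norm_num; ring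

lemma six_sn (l j : ℕ) : 6 * sn l j ≤ 4 ^ (5 * (j + 1)) * Kn l j := by
  have h1 := lt_bn_mul l j
  have h2 : (j + 1) ^ 2 ≤ 4 ^ j := by
    have : j + 1 ≤ 2 ^ j := Nat.lt_two_pow_self
    calc (j + 1) ^ 2 ≤ (2 ^ j) ^ 2 := Nat.pow_le_pow_left this 2
      _ = 4 ^ j := by rw [← pow_mul, mul_comm, pow_mul]; norm_num
  have h3 : 4 ^ (j + 8) * (j + 1) ^ 2 ≤ 256 * 4 ^ (5 * (j + 1)) := by
    calc 4 ^ (j + 8) * (j + 1) ^ 2 ≤ 4 ^ (j + 8) * 4 ^ j := Nat.mul_le_mul_left _ h2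
      _ = 4 ^ (2 * j + 8) := by rw [← pow_add]; congr 1; ring
      _ ≤ 4 ^ (4 + 5 * (j + 1)) := Nat.pow_le_pow_right (by norm_num) (by omega)
      _ = 256 * 4 ^ (5 * (j + 1)) := by rw [pow_add]; norm_num
  have h4 : (6 * sn l j) * (j + 1) ≤ (4 ^ (5 * (j + 1)) * Kn l j) * (j + 1) := by
    calc (6 * sn l j) * (j + 1) = 6 * (4 ^ (j + 8) * (j + 1) ^ 2) * (l * 2 ^ l) := by
          rw [sn]; ring
      _ ≤ 6 * (256 * 4 ^ (5 * (j + 1))) * (l * ((bn l j + 1) * (j + 1))) := by gcongr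
      _ = (4 ^ (5 * (j + 1)) * Kn l j) * (j + 1) := by rw [Kn]; ring
  exact Nat.le_of_mul_le_mul_right h4 (by omega)

lemma log_Z_le {l j : ℕ} (hl : 30 ≤ l) (hj : j < l) :
    Real.log (4 * Yn l j) ≤ 4 * l := by
  have hl0 : (0 : ℝ) < l := by exact_mod_cast (by omega : 0 < l)
  have hl1 : (30 : ℝ) ≤ l := by exact_mod_cast hl
  have h1 : (4 * (Yn l j : ℝ)) = 4 ^ (j + l + 10) * (l : ℝ) ^ 2 := by
    rw [Yn]
    push_cast
    ring
  have h2 : Real.log l ≤ l / 4 + 0.4 := by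
    have h3 := Real.log_le_sub_one_of_pos (x := (l : ℝ) / 4) (by positivity)
    rw [Real.log_div (by positivity) (by norm_num)] at h3
    have h4 : Real.log 4 = 2 * Real.log 2 := by
      rw [show (4 : ℝ) = 2 ^ 2 by norm_num, Real.log_pow]
      norm_num
    have := Real.log_two_lt_d9
    linarith
  have h4 : Real.log 4 ≤ 1.3863 := by
    have h4 : Real.log 4 = 2 * Real.log 2 := by
      rw [show (4 : ℝ) = 2 ^ 2 by norm_num, Real.log_pow]
      norm_num
    have := Real.log_two_lt_d9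
    linarith
  rw [h1, Real.log_mul (by positivity) (by positivity), Real.log_pow, Real.log_pow]
  have h5 : ((j + l + 10 : ℕ) : ℝ) ≤ 2 * l + 9 := by
    have : j + l + 10 ≤ 2 * l + 9 := by omega
    exact_mod_cast this
  have h6 : ((j + l + 10 : ℕ) : ℝ) * Real.log 4 ≤ (2 * l + 9) * 1.3863 :=
    mul_le_mul h5 h4 (Real.log_nonneg (by norm_num)) (by positivity)
  push_cast at h6 ⊢
  linarith

lemma sum_inv_le (l : ℕ) : ∑ j ∈ range l, ((j + 1 : ℕ) : ℝ)⁻¹ ≤ 1 + Real.log l := by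
  have h := harmonic_le_one_add_log l
  rw [harmonic] at h
  push_cast at h ⊢
  exact h

lemma le_sum_inv (l : ℕ) : Real.log (l + 1) ≤ ∑ j ∈ range l, ((j + 1 : ℕ) : ℝ)⁻¹ := by
  have h := log_add_one_le_harmonic l
  rw [harmonic] at h
  push_cast at h ⊢
  exact h

/-- the number of all blocks -/
def nb (l : ℕ) : ℕ := ∑ j ∈ range l, bn l j

lemma nb_le (l : ℕ) : (nb l : ℝ) ≤ 2 ^ l * (1 + Real.log l) := by
  rw [nb]
  push_cast
  calc ∑ j ∈ range l, (bn l j : ℝ) ≤ ∑ j ∈ range l, 2 ^ l * ((j + 1 : ℕ) : ℝ)⁻¹ := by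
        refine sum_le_sum fun j _ => ?_
        have h := bn_mul l j
        have h2 : (bn l j : ℝ) * ((j + 1 : ℕ) : ℝ) ≤ 2 ^ l := by exact_mod_cast h
        rw [← div_eq_mul_inv, le_div_iff₀ (by positivity)]
        exact h2
    _ = 2 ^ l * ∑ j ∈ range l, ((j + 1 : ℕ) : ℝ)⁻¹ := by rw [mul_sum]
    _ ≤ 2 ^ l * (1 + Real.log l) := mul_le_mul_of_nonneg_left (sum_inv_le l) (by positivity)

lemma le_nb (l : ℕ) : 2 ^ l * Real.log (l + 1) - l ≤ (nb l : ℝ) := by
  rw [nb]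
  push_cast
  have h1 : ∑ j ∈ range l, (2 ^ l * ((j + 1 : ℕ) : ℝ)⁻¹ - 1) ≤ ∑ j ∈ range l, (bn l j : ℝ) := by
    refine sum_le_sum fun j _ => ?_
    have h := lt_bn_mul l j
    have h2 : (2 : ℝ) ^ l ≤ ((bn l j : ℝ) + 1) * ((j + 1 : ℕ) : ℝ) := by exact_mod_cast h
    rw [← div_eq_mul_inv, sub_le_iff_le_add, div_le_iff₀ (by positivity)]
    exact h2
  rw [sum_sub_distrib, ← mul_sum, sum_const, card_range, nsmul_eq_mul, mul_one] at h1
  have h2 := mul_le_mul_of_nonneg_left (le_sum_inv l) (by positivity : (0 : ℝ) ≤ 2 ^ l)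
  linarith

lemma bn_le (l j : ℕ) : bn l j ≤ 2 ^ l := Nat.div_le_self _ _

lemma four_Z_le (l j : ℕ) : 16 * Yn l j ≤ sn l j ^ 2 := by
  have h8 : sn l j ^ 2 = 4 ^ (j + 7) * (j + 1) ^ 2 * Yn l j := by
    rw [sn, Yn, mul_pow, mul_pow, mul_pow, sq (2 ^ l), two_pow_sq]
    ring
  rw [h8]
  refine Nat.mul_le_mul_right _ ?_
  calc 16 ≤ 4 ^ 7 * 1 := by norm_num
    _ ≤ 4 ^ (j + 7) * (j + 1) ^ 2 :=
        Nat.mul_le_mul (Nat.pow_le_pow_right (by norm_num) (by omega))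
          (Nat.one_le_pow _ _ (by omega))

lemma sqrt_four (x : ℝ) : 2 * √x = √(4 * x) := by
  rw [Real.sqrt_mul (by norm_num), show √(4 : ℝ) = 2 by
    rw [show (4 : ℝ) = 2 ^ 2 by norm_num, Real.sqrt_sq (by norm_num)]]

attribute [local irreducible] Yn bn sn Kn

/-- large central values, for a given size parameter -/
theorem block : ∃ l0 : ℕ, ∀ l : ℕ, l0 ≤ l → ∀ (q : ℕ) [NeZero q], q.Prime → 
    ∀ 𝓕 : Finset (DirichletCharacter ℂ q), PosFam 𝓕 → 1 ∈ 𝓕 → ∀ Q : ℝ,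
    100000 * l * 4 ^ l * (1 + Real.log l) ≤ Real.log Q → Q * √q ≤ #𝓕 →
    576 * Real.log q ^ 2 ≤ Q →
    ∃ χ ∈ 𝓕, χ ≠ 1 ∧ 2 ^ nb l / 4 - 1 ≤ ‖χ.LFunction (1 / 2)‖ := by
  classical
  obtain ⟨Y0, hY0⟩ := card_PI
  refine ⟨Y0 + 30, fun l hl q _ hq 𝓕 h𝓕 h1 Q hQ hQF hQq => ?_⟩
  have hl30 : 30 ≤ l := by omega
  have hl0 : (0 : ℝ) < l := by exact_mod_cast (by omega : 0 < l)
  have hl1 : (30 : ℝ) ≤ l := by exact_mod_cast hl30
  have hlog : 0 ≤ Real.log l := Real.log_nonneg (by linarith)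
  -- the blocks
  have hbl : ∀ j : Fin l, ∃ P : Fin (bn l j) → Finset ℕ,
      (∀ i, P i ⊆ PI (Yn l j) ∧ #(P i) = sn l j) ∧ ∀ i i', i ≠ i' → Disjoint (P i) (P i') := by
    intro j
    refine split _ _ _ ((bn_sn l j).trans ?_)
    have hYge : Y0 ≤ Yn l j := by
      have a1 : l < 2 ^ l := Nat.lt_two_pow_self
      have a2 : 2 ^ l ≤ 4 ^ (j + l + 9) := by
        calc 2 ^ l ≤ 4 ^ l := Nat.pow_le_pow_left (by norm_num) l
          _ ≤ 4 ^ (j + l + 9) := Nat.pow_le_pow_right (by norm_num) (by omega)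
      have a3 : 1 ≤ l ^ 2 := Nat.one_le_pow _ _ (by omega)
      calc Y0 ≤ 2 ^ l * 1 := by omega
        _ ≤ 4 ^ (j + l + 9) * l ^ 2 := Nat.mul_le_mul a2 a3
        _ = Yn l j := by rw [Yn]
    have h5 := hY0 _ hYge
    have h6 : (Yn l j : ℝ) ≤ #(PI (Yn l j)) * (4 * l) :=
      h5.trans (mul_le_mul_of_nonneg_left (log_Z_le hl30 j.2) (Nat.cast_nonneg _))
    have h7 : Yn l j ≤ #(PI (Yn l j)) * (4 * l) := by exact_mod_cast h6
    have h8 : (4 ^ ((j : ℕ) + l + 8) * l) * (4 * l) ≤ #(PI (Yn l j)) * (4 * l) := by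
      refine le_trans (le_of_eq ?_) h7
      rw [Yn]
      ring
    exact Nat.le_of_mul_le_mul_right h8 (by omega)
  choose P hP hPd using hbl
  set ι := Σ j : Fin l, Fin (bn l j) with hι
  have hne : Nonempty ι := by
    refine ⟨⟨⟨0, by omega⟩, ⟨0, ?_⟩⟩⟩
    change 0 < bn l 0
    rw [bn, Nat.zero_add, Nat.div_one]
    positivity
  have hcardι : Fintype.card ι = nb l := by
    change Fintype.card (Σ j : Fin l, Fin (bn l j)) = nb l
    rw [Fintype.card_sigma, nb, ← Fin.sum_univ_eq_sum_range]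
    simp only [Fintype.card_fin]
  have hYpos : ∀ j, 0 < Yn l j := fun j => by
    rw [Yn]
    have : 0 < l := by omega
    positivity
  set Z : ι → ℝ := fun i => 4 * (Yn l i.1 : ℝ) with hZ
  have hZ0 : ∀ i, 0 < Z i := fun i => by
    have := hYpos i.1
    have : (0 : ℝ) < Yn l i.1 := by exact_mod_cast this
    rw [hZ]
    positivity
  have hZlog : ∀ i, Real.log (Z i) ≤ 4 * l := fun i => log_Z_le hl30 i.1.2
  have hZexp : ∀ i, Z i ≤ Real.exp (4 * l) := fun i => by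
    rw [← Real.log_le_iff_le_exp (hZ0 i)]
    exact hZlog i
  -- sizes
  have hq1 : (1 : ℝ) < q := by exact_mod_cast hq.one_lt
  have hq0 : (0 : ℝ) < q := by linarith
  have hlogq : 0 < Real.log q := Real.log_pos hq1
  have h4l : (1 : ℝ) ≤ 4 ^ l := one_le_pow₀ (by norm_num)
  have hQlog : 100 * (l : ℝ) ≤ Real.log Q := by
    refine le_trans ?_ hQ
    have : (1 : ℝ) ≤ 4 ^ l * (1 + Real.log l) := by nlinarith
    nlinarith
  have hQ0 : 0 < Q := by
    by_contra h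
    push Not at h
    have h2 : 0 < 576 * Real.log q ^ 2 := by positivity
    linarith
  have hcardq : (#𝓕 : ℝ) ≤ q := by
    have e1 : Fintype.card (DirichletCharacter ℂ q) = q.totient := by
      rw [← Nat.card_eq_fintype_card]
      exact DirichletCharacter.card_eq_totient_of_hasEnoughRootsOfUnity ℂ q
    have e2 : #𝓕 ≤ q := (card_le_univ 𝓕).trans (e1.le.trans (Nat.totient_le q))
    exact_mod_cast e2
  have hQq2 : Q ≤ √q := by
    have h2 : 0 < √(q : ℝ) := Real.sqrt_pos.2 hq0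
    have h3 : Q * √q ≤ √q * √q := by
      rw [Real.mul_self_sqrt hq0.le]
      exact hQF.trans hcardq
    exact le_of_mul_le_mul_right h3 h2
  have hQq3 : Q ≤ q := by
    have h2 : √(q : ℝ) ≤ q := by
      rw [Real.sqrt_le_left hq0.le]
      nlinarith
    exact hQq2.trans h2
  have hexpQ : Real.exp (100 * l) ≤ Q := by
    rw [← Real.le_log_iff_exp_le hQ0]
    exact hQlog
  have hq2 : q ≠ 2 := by
    intro h
    have h2 : (100 * (l : ℝ)) + 1 ≤ Real.exp (100 * l) := Real.add_one_le_exp _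
    have h3 : (q : ℝ) = 2 := by exact_mod_cast h
    linarith
  have hnbι := nb_le l
  have hcardr : (Fintype.card ι : ℝ) = nb l := by exact_mod_cast hcardι
  -- apply the assembly
  have hKs : ∀ i : ι, 96 * Z i ≤ (Kn l i.1 : ℝ) * sn l i.1 := fun i => by
    have := Kn_sn l i.1
    change 96 * (4 * (Yn l i.1 : ℝ)) ≤ _
    exact_mod_cast this
  have hKpos : ∀ i : ι, 1 ≤ Kn l i.1 := fun i => by
    rw [Kn]
    have : 0 < l := by omega
    exact Nat.one_le_iff_ne_zero.2 (by positivity)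
  suffices H : ∃ χ ∈ 𝓕, χ ≠ 1 ∧ 2 ^ Fintype.card ι / 4 - 1 ≤ ‖χ.LFunction (1 / 2)‖ by
    rw [hcardι] at H
    exact H
  refine large_central hq hq2 h𝓕 h1 (ι := ι) (fun i => P i.1 i.2) Z
    (fun i => Kn l i.1) hZ0 ?_ ?_ ?_ ?_ ?_ (fun i => (6 * (sn l i.1 : ℝ) / Kn l i.1) ^ (2 * Kn l i.1))
    (fun i => by positivity) ?_ ?_ ?_
  · -- primes
    rintro ⟨j, i⟩ p hp
    have h5 := (hP j i).1 hp
    simp only [PI, mem_filter, mem_Ioc] at h5
    have h6 : (p : ℝ) ≤ Z ⟨j, i⟩ := by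
      change (p : ℝ) ≤ 4 * (Yn l j : ℝ)
      exact_mod_cast h5.1.2
    refine ⟨h5.2, ?_, h6⟩
    have h7 : (p : ℝ) < q := by
      refine lt_of_le_of_lt h6 ((hZexp _).trans_lt (lt_of_lt_of_le ?_ (hexpQ.trans hQq3)))
      exact Real.exp_lt_exp.2 (by linarith)
    have h8 : p < q := by exact_mod_cast h7
    exact (Nat.coprime_primes h5.2 hq).2 h8.ne
  · -- disjointness
    rintro ⟨j, i⟩ ⟨j', i'⟩ hne
    by_cases hj : j = j'
    · subst hj
      refine hPd j i i' fun e => hne ?_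
      rw [e]
    · rw [disjoint_left]
      intro p hp hp'
      have h5 := (hP j i).1 hp
      have h6 := (hP j' i').1 hp'
      simp only [PI, mem_filter, mem_Ioc] at h5 h6
      have h7 : ∀ a b : ℕ, a < b → 4 * Yn l a ≤ Yn l b := by
        intro a b hab
        rw [Yn, Yn]
        calc 4 * (4 ^ (a + l + 9) * l ^ 2) = 4 ^ (a + 1 + l + 9) * l ^ 2 := by ring
          _ ≤ 4 ^ (b + l + 9) * l ^ 2 := by
            refine Nat.mul_le_mul_right _ (Nat.pow_le_pow_right (by norm_num) (by omega))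
      rcases lt_or_gt_of_ne (fun e => hj (Fin.ext e) : (j : ℕ) ≠ j') with h | h
      · have := h7 _ _ h
        omega
      · have := h7 _ _ h
        omega
  · -- the product of the `Z i`
    have h5 : ∏ i, Z i ≤ Real.exp (4 * l * nb l) := by
      calc ∏ i, Z i ≤ ∏ _i : ι, Real.exp (4 * l) :=
            prod_le_prod (fun i _ => (hZ0 i).le) fun i _ => hZexp i
        _ = Real.exp (4 * l * nb l) := by
            rw [prod_const, card_univ, hcardι, ← Real.exp_nat_mul]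
            congr 1
            ring
    have h6 : 4 * (l : ℝ) * nb l ≤ Real.log Q := by
      have h7 : 4 * (l : ℝ) * nb l ≤ 4 * l * (2 ^ l * (1 + Real.log l)) :=
        mul_le_mul_of_nonneg_left hnbι (by positivity)
      have h8 : (2 : ℝ) ^ l ≤ 4 ^ l := pow_le_pow_left₀ (by norm_num) (by norm_num) l
      have h9 : 4 * (l : ℝ) * (2 ^ l * (1 + Real.log l)) ≤ 4 * l * (4 ^ l * (1 + Real.log l)) := by
        gcongr
      have h10 : 0 ≤ (l : ℝ) * 4 ^ l * (1 + Real.log l) := by positivity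
      linarith
    have h7 : Real.exp (4 * l * nb l) ≤ Q := by
      rw [← Real.le_log_iff_exp_le hQ0]
      exact h6
    have h8 : 1 ≤ 4 * Real.log q ^ 2 := by
      have h9 : 1 ≤ Real.log q := by
        have : Real.log Q ≤ Real.log q := Real.log_le_log hQ0 hQq3
        linarith
      nlinarith
    calc ∏ i, Z i ≤ Q := h5.trans h7
      _ ≤ q * 1 := by linarith
      _ ≤ q * (4 * Real.log q ^ 2) := mul_le_mul_of_nonneg_left h8 hq0.le
      _ = 4 * q * Real.log q ^ 2 := by ring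
  · -- the moments
    rintro ⟨j, i⟩
    have h5 := four_Kn j.2
    rw [(hP j i).2]
    refine le_trans (pow_le_pow_left₀ (by have := hZ0 ⟨j, i⟩; positivity) ?_ _)
      (fact_desc (K := Kn l j) (s := sn l j) (by omega))
    have h6 := hKs ⟨j, i⟩
    simp only at h6 ⊢
    linarith
  · -- the exceptional sum
    have h5 : ∀ i : ι, (1 / 2 : ℝ) ^ Kn l i.1 ≤ (1 / 2) ^ (2 * l + 1) := by
      intro i
      refine pow_le_pow_of_le_one (by norm_num) (by norm_num) ?_
      rw [Kn]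
      nlinarith [Nat.zero_le (bn l i.1)]
    have h6 : nb l ≤ 4 ^ l := by
      calc nb l ≤ ∑ _j ∈ range l, 2 ^ l := sum_le_sum fun j _ => bn_le l j
        _ = l * 2 ^ l := by rw [sum_const, card_range, smul_eq_mul]
        _ ≤ 2 ^ l * 2 ^ l := Nat.mul_le_mul_right _ Nat.lt_two_pow_self.le
        _ = 4 ^ l := two_pow_sq l
    calc ∑ i : ι, (1 / 2 : ℝ) ^ Kn l i.1 ≤ ∑ _i : ι, (1 / 2 : ℝ) ^ (2 * l + 1) :=
          sum_le_sum fun i _ => h5 i
      _ = nb l * (1 / 2) ^ (2 * l + 1) := by rw [sum_const, card_univ, hcardι, nsmul_eq_mul]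
      _ ≤ 4 ^ l * (1 / 2) ^ (2 * l + 1) := by
          refine mul_le_mul_of_nonneg_right ?_ (by positivity)
          exact_mod_cast h6
      _ = 1 / 2 := by
          rw [pow_succ, pow_mul, ← mul_assoc, ← mul_pow]
          norm_num
  · -- the cost of a block
    rintro ⟨j, i⟩
    have h5 : #(P j i) = sn l j := (hP j i).2
    simp only [h5]
    have hK1 : 1 ≤ Kn l j := hKpos ⟨j, i⟩
    have hK4 : 4 * Kn l j ≤ sn l j := four_Kn j.2
    have hZ1 : 0 < Z ⟨j, i⟩ := hZ0 ⟨j, i⟩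
    refine cost hZ1 hK4 hK1 ?_
    have h6 : 4 * Z ⟨j, i⟩ ≤ (sn l j : ℝ) ^ 2 := by
      have h9 : (16 : ℝ) * Yn l j ≤ (sn l j : ℝ) ^ 2 := by exact_mod_cast four_Z_le l j
      change 4 * (4 * (Yn l j : ℝ)) ≤ _
      linarith
    rw [sqrt_four, Real.sqrt_le_left (by positivity)]
    exact h6
  · rintro ⟨j, i⟩
    have h5 : #(P j i) = sn l j := (hP j i).2
    have h6 := four_Kn j.2
    simp only [h5]
    omega
  · -- the total cost
    have h5 : ∀ i : ι, (6 * (sn l i.1 : ℝ) / Kn l i.1) ^ (2 * Kn l i.1) ≤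
        4 ^ (30720 * l * 2 ^ l) := by
      intro i
      have h6 : 6 * (sn l i.1 : ℝ) / Kn l i.1 ≤ 4 ^ (5 * ((i.1 : ℕ) + 1)) := by
        have h7 : (0 : ℝ) < Kn l i.1 := by exact_mod_cast hKpos i
        rw [div_le_iff₀ h7]
        exact_mod_cast six_sn l i.1
      calc (6 * (sn l i.1 : ℝ) / Kn l i.1) ^ (2 * Kn l i.1)
          ≤ (4 ^ (5 * ((i.1 : ℕ) + 1))) ^ (2 * Kn l i.1) :=
            pow_le_pow_left₀ (by positivity) h6 _
        _ = 4 ^ (10 * (Kn l i.1 * ((i.1 : ℕ) + 1))) := by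
            rw [← pow_mul]
            congr 1
            ring
        _ ≤ 4 ^ (30720 * l * 2 ^ l) := by
            refine pow_le_pow_right₀ (by norm_num) ?_
            have := Kn_mul_le i.1.2
            calc 10 * (Kn l i.1 * ((i.1 : ℕ) + 1)) ≤ 10 * (3072 * l * 2 ^ l) :=
                  Nat.mul_le_mul_left _ this
              _ = 30720 * l * 2 ^ l := by ring
    have h6 : ∏ i : ι, (6 * (sn l i.1 : ℝ) / Kn l i.1) ^ (2 * Kn l i.1) ≤ √Q := by
      calc ∏ i : ι, (6 * (sn l i.1 : ℝ) / Kn l i.1) ^ (2 * Kn l i.1)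
          ≤ ∏ _i : ι, (4 : ℝ) ^ (30720 * l * 2 ^ l) :=
            prod_le_prod (fun i _ => by positivity) fun i _ => h5 i
        _ = ((4 : ℝ) ^ (30720 * l * 2 ^ l)) ^ nb l := by rw [prod_const, card_univ, hcardι]
        _ = Real.exp (Real.log 4 * ((30720 * l * 2 ^ l) * nb l)) := by
            rw [← Real.rpow_natCast, ← Real.rpow_natCast, ← Real.rpow_mul (by norm_num),
              Real.rpow_def_of_pos (by norm_num)]
            push_cast
            rfl
        _ ≤ Real.exp (Real.log Q * (1 / 2)) := by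
            refine Real.exp_le_exp.2 ?_
            have h7 : (30720 * (l : ℝ) * 2 ^ l) * nb l ≤ 30720 * l * 4 ^ l * (1 + Real.log l) := by
              calc (30720 * (l : ℝ) * 2 ^ l) * nb l
                  ≤ (30720 * (l : ℝ) * 2 ^ l) * (2 ^ l * (1 + Real.log l)) :=
                    mul_le_mul_of_nonneg_left hnbι (by positivity)
                _ = 30720 * l * (2 ^ l * 2 ^ l) * (1 + Real.log l) := by ring
                _ = 30720 * l * 4 ^ l * (1 + Real.log l) := by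
                    rw [← mul_pow]
                    norm_num
            have h8 : Real.log 4 ≤ 1.3863 := by
              have h4 : Real.log 4 = 2 * Real.log 2 := by
                rw [show (4 : ℝ) = 2 ^ 2 by norm_num, Real.log_pow]
                norm_num
              have := Real.log_two_lt_d9
              linarith
            have h9 : Real.log 4 * ((30720 * (l : ℝ) * 2 ^ l) * nb l) ≤
                1.3863 * (30720 * l * 4 ^ l * (1 + Real.log l)) :=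
              mul_le_mul h8 h7 (by positivity) (by norm_num)
            have h10 : 0 ≤ (l : ℝ) * 4 ^ l * (1 + Real.log l) := by positivity
            linarith
        _ = √Q := by
            rw [Real.sqrt_eq_rpow, Real.rpow_def_of_pos hQ0]
    have h7 : 24 * Real.log q ≤ √Q := by
      refine Real.le_sqrt_of_sq_le (le_trans (le_of_eq ?_) hQq)
      ring
    calc 24 * √q * Real.log q * ∏ i : ι, (6 * (sn l i.1 : ℝ) / Kn l i.1) ^ (2 * Kn l i.1)
        = √q * ((24 * Real.log q) *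
          ∏ i : ι, (6 * (sn l i.1 : ℝ) / Kn l i.1) ^ (2 * Kn l i.1)) := by ring
      _ ≤ √q * (√Q * √Q) := by
          refine mul_le_mul_of_nonneg_left ?_ (Real.sqrt_nonneg _)
          exact mul_le_mul h7 h6 (prod_nonneg fun i _ => by positivity) (Real.sqrt_nonneg _)
      _ = Q * √q := by rw [Real.mul_self_sqrt hQ0.le, mul_comm]
      _ ≤ #𝓕 := hQF

end Pool.Agent.Q28.SG
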