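import Mathlib

/-!
# Functions of positive type on the Dirichlet characters modulo `q`

`Pos F`: the function `F` of the characters is `χ ↦ ∑ a x χ(x)` with coefficients `a x ≥ 0`.
-/

set_option autoImplicit false
set_option linter.unusedSectionVars false

namespace Pool.Agent.Q28.SG

open Finset ComplexOrder ComplexConjugate

variable {q : ℕ} [NeZero q]

/-- functions on the characters with nonnegative coefficients -/
def Pos (F : DirichletCharacter ℂ q → ℂ) : Prop :=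
  ∃ a : (ZMod q)ˣ → ℝ, (∀ x, 0 ≤ a x) ∧ ∀ χ, F χ = ∑ x, (a x : ℂ) * χ (x : ZMod q)

lemma Pos.congr {F G : DirichletCharacter ℂ q → ℂ} (h : Pos F) (e : ∀ χ, G χ = F χ) : Pos G := by
  obtain ⟨a, h0, h1⟩ := h
  exact ⟨a, h0, fun χ => by rw [e, h1]⟩

lemma Pos.zero : Pos (fun _ : DirichletCharacter ℂ q => (0 : ℂ)) :=
  ⟨fun _ => 0, fun _ => le_rfl, fun χ => by simp⟩

lemma Pos.add {F G : DirichletCharacter ℂ q → ℂ} (hF : Pos F) (hG : Pos G) :
    Pos (fun χ => F χ + G χ) := by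
  obtain ⟨a, h0, h1⟩ := hF
  obtain ⟨b, h2, h3⟩ := hG
  refine ⟨fun x => a x + b x, fun x => add_nonneg (h0 x) (h2 x), fun χ => ?_⟩
  beta_reduce
  rw [h1, h3, ← sum_add_distrib]
  refine sum_congr rfl fun x _ => ?_
  push_cast
  ring

lemma Pos.smul {F : DirichletCharacter ℂ q → ℂ} (hF : Pos F) {c : ℝ} (hc : 0 ≤ c) :
    Pos (fun χ => (c : ℂ) * F χ) := by
  obtain ⟨a, h0, h1⟩ := hF
  refine ⟨fun x => c * a x, fun x => mul_nonneg hc (h0 x), fun χ => ?_⟩
  beta_reduce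
  rw [h1, mul_sum]
  refine sum_congr rfl fun x _ => ?_
  push_cast
  ring

lemma Pos.char (x : (ZMod q)ˣ) : Pos (fun χ : DirichletCharacter ℂ q => χ (x : ZMod q)) := by
  classical
  refine ⟨fun y => if y = x then 1 else 0, fun y => by
    beta_reduce; split_ifs <;> norm_num, fun χ => ?_⟩
  rw [Finset.sum_eq_single x]
  · simp
  · intro y _ hy
    simp [hy]
  · simp

lemma Pos.one : Pos (fun _ : DirichletCharacter ℂ q => (1 : ℂ)) :=
  (Pos.char (1 : (ZMod q)ˣ)).congr fun χ => by simp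

lemma Pos.const {c : ℝ} (hc : 0 ≤ c) : Pos (fun _ : DirichletCharacter ℂ q => (c : ℂ)) :=
  (Pos.one.smul hc).congr fun χ => by simp

lemma Pos.sum {ι : Type*} (s : Finset ι) {F : ι → DirichletCharacter ℂ q → ℂ}
    (h : ∀ i ∈ s, Pos (F i)) : Pos (fun χ => ∑ i ∈ s, F i χ) := by
  classical
  induction s using Finset.induction_on with
  | empty => exact Pos.zero.congr fun χ => by simp
  | insert i s hi ih =>
    refine ((h i (mem_insert_self _ _)).add (ih fun j hj => h j (mem_insert_of_mem hj))).congr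
      fun χ => ?_
    rw [sum_insert hi]

lemma Pos.mul {F G : DirichletCharacter ℂ q → ℂ} (hF : Pos F) (hG : Pos G) :
    Pos (fun χ => F χ * G χ) := by
  obtain ⟨a, h0, h1⟩ := hF
  obtain ⟨b, h2, h3⟩ := hG
  have h : Pos (fun χ : DirichletCharacter ℂ q => ∑ x : (ZMod q)ˣ, ∑ y : (ZMod q)ˣ,
      ((a x * b y : ℝ) : ℂ) * χ ((x * y : (ZMod q)ˣ) : ZMod q)) :=
    Pos.sum _ fun x _ => Pos.sum _ fun y _ => (Pos.char (x * y)).smul (mul_nonneg (h0 x) (h2 y))
  refine h.congr fun χ => ?_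
  rw [h1, h3, sum_mul_sum]
  refine sum_congr rfl fun x _ => sum_congr rfl fun y _ => ?_
  rw [Units.val_mul, map_mul]
  push_cast
  ring

lemma Pos.pow {F : DirichletCharacter ℂ q → ℂ} (hF : Pos F) (n : ℕ) :
    Pos (fun χ => F χ ^ n) := by
  induction n with
  | zero => exact Pos.one.congr fun χ => by simp
  | succ n ih => exact (ih.mul hF).congr fun χ => by rw [pow_succ]

lemma Pos.prod {ι : Type*} (s : Finset ι) {F : ι → DirichletCharacter ℂ q → ℂ}
    (h : ∀ i ∈ s, Pos (F i)) : Pos (fun χ => ∏ i ∈ s, F i χ) := by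
  classical
  induction s using Finset.induction_on with
  | empty => exact Pos.one.congr fun χ => by simp
  | insert i s hi ih =>
    refine ((h i (mem_insert_self _ _)).mul (ih fun j hj => h j (mem_insert_of_mem hj))).congr
      fun χ => ?_
    rw [prod_insert hi]

lemma conj_char (χ : DirichletCharacter ℂ q) (x : (ZMod q)ˣ) :
    conj (χ (x : ZMod q)) = χ ((x⁻¹ : (ZMod q)ˣ) : ZMod q) := by
  have h1 : χ ((x⁻¹ : (ZMod q)ˣ) : ZMod q) * χ (x : ZMod q) = 1 := by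
    rw [← map_mul, ← Units.val_mul, inv_mul_cancel, Units.val_one, map_one]
  have h2 : ‖χ (x : ZMod q)‖ = 1 := DirichletCharacter.unit_norm_eq_one χ x
  have h3 : conj (χ (x : ZMod q)) * χ (x : ZMod q) = 1 := by
    rw [← Complex.normSq_eq_conj_mul_self, Complex.normSq_eq_norm_sq, h2]
    norm_num
  have h4 : χ (x : ZMod q) ≠ 0 := by
    intro h
    rw [h, norm_zero] at h2
    exact zero_ne_one h2
  exact mul_right_cancel₀ h4 (h3.trans h1.symm)

lemma Pos.conj {F : DirichletCharacter ℂ q → ℂ} (hF : Pos F) :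
    Pos (fun χ => conj (F χ)) := by
  obtain ⟨a, h0, h1⟩ := hF
  have h : Pos (fun χ : DirichletCharacter ℂ q => ∑ x : (ZMod q)ˣ,
      ((a x : ℝ) : ℂ) * χ ((x⁻¹ : (ZMod q)ˣ) : ZMod q)) :=
    Pos.sum _ fun x _ => (Pos.char x⁻¹).smul (h0 x)
  refine h.congr fun χ => ?_
  rw [h1, map_sum]
  refine sum_congr rfl fun x _ => ?_
  rw [map_mul, Complex.conj_ofReal, conj_char]

/-- a family of characters whose character sums are nonnegative -/
def PosFam (𝓕 : Finset (DirichletCharacter ℂ q)) : Prop :=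
  ∀ x : (ZMod q)ˣ, 0 ≤ ∑ χ ∈ 𝓕, χ (x : ZMod q)

lemma PosFam.nonneg {𝓕 : Finset (DirichletCharacter ℂ q)} (h𝓕 : PosFam 𝓕)
    {F : DirichletCharacter ℂ q → ℂ} (hF : Pos F) : 0 ≤ ∑ χ ∈ 𝓕, F χ := by
  obtain ⟨a, h0, h1⟩ := hF
  have h2 : ∑ χ ∈ 𝓕, F χ = ∑ x : (ZMod q)ˣ, (a x : ℂ) * ∑ χ ∈ 𝓕, χ (x : ZMod q) := by
    simp_rw [h1, mul_sum]
    rw [sum_comm]
  rw [h2]
  exact sum_nonneg fun x _ => mul_nonneg (by exact_mod_cast h0 x) (h𝓕 x)

/-- subgroups are such families -/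
lemma posFam_subgroup (H : Subgroup (DirichletCharacter ℂ q))
    (𝓕 : Finset (DirichletCharacter ℂ q)) (h : ∀ χ, χ ∈ 𝓕 ↔ χ ∈ H) : PosFam 𝓕 := by
  intro x
  by_cases hx : ∀ χ ∈ H, χ (x : ZMod q) = 1
  · rw [sum_congr rfl (fun χ hχ => hx χ ((h χ).1 hχ))]
    simp
  · push Not at hx
    obtain ⟨ψ, h0, h1⟩ := hx
    have h2 : ∑ χ ∈ 𝓕, (ψ * χ) (x : ZMod q) = ∑ χ ∈ 𝓕, χ (x : ZMod q) := by
      refine sum_equiv (Equiv.mulLeft ψ) ?_ ?_
      · intro χ
        rw [h, h, Equiv.coe_mulLeft]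
        exact (Subgroup.mul_mem_cancel_left H h0).symm
      · intro χ _
        rfl
    have h3 : ∑ χ ∈ 𝓕, (ψ * χ) (x : ZMod q) = ψ (x : ZMod q) * ∑ χ ∈ 𝓕, χ (x : ZMod q) := by
      rw [mul_sum]
      refine sum_congr rfl fun χ _ => ?_
      rw [MulChar.mul_apply]
    rw [h3] at h2
    have h4 : (ψ (x : ZMod q) - 1) * ∑ χ ∈ 𝓕, χ (x : ZMod q) = 0 := by
      rw [sub_mul, h2]
      ring
    rcases mul_eq_zero.1 h4 with h5 | h5
    · exact absurd (sub_eq_zero.1 h5) h1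
    · rw [h5]

end Pool.Agent.Q28.SG
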