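import Pool.Agent.Q28.SG.Diag

/-!
# The resonance inequality for families of positive type
-/

set_option autoImplicit false
set_option linter.unusedSectionVars false

namespace Pool.Agent.Q28.SG

open Finset ComplexOrder ComplexConjugate

variable {q : ℕ} [NeZero q]

/-- `G ≼ F`: the difference is of positive type -/
def PLe (G F : DirichletCharacter ℂ q → ℂ) : Prop := Pos (fun χ => F χ - G χ)

lemma PLe.refl (F : DirichletCharacter ℂ q → ℂ) : PLe F F :=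
  Pos.zero.congr fun χ => by simp

lemma PLe.trans {F G E : DirichletCharacter ℂ q → ℂ} (h1 : PLe F G) (h2 : PLe G E) : PLe F E :=
  (Pos.add h1 h2).congr fun χ => by ring

lemma PLe.pos {F G : DirichletCharacter ℂ q → ℂ} (h1 : Pos F) (h2 : PLe F G) : Pos G :=
  (Pos.add h1 h2).congr fun χ => by ring

lemma PLe.mul {F F' G G' : DirichletCharacter ℂ q → ℂ} (h1 : PLe F F') (h2 : PLe G G')
    (hF : Pos F') (hG : Pos G) : PLe (fun χ => F χ * G χ) (fun χ => F' χ * G' χ) :=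
  ((Pos.mul h1 hG).add (Pos.mul hF h2)).congr fun χ => by ring

lemma PLe.add {F F' G G' : DirichletCharacter ℂ q → ℂ} (h1 : PLe F F') (h2 : PLe G G') :
    PLe (fun χ => F χ + G χ) (fun χ => F' χ + G' χ) :=
  (Pos.add h1 h2).congr fun χ => by ring

lemma PLe.prod {ι : Type*} (s : Finset ι) {F G : ι → DirichletCharacter ℂ q → ℂ}
    (h : ∀ i ∈ s, PLe (F i) (G i)) (hF : ∀ i ∈ s, Pos (F i)) :
    PLe (fun χ => ∏ i ∈ s, F i χ) (fun χ => ∏ i ∈ s, G i χ) := by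
  classical
  induction s using Finset.induction_on with
  | empty => exact (PLe.refl _)
  | insert i s hi ih =>
    have h1 := (h i (mem_insert_self _ _)).mul (ih (fun j hj => h j (mem_insert_of_mem hj))
      (fun j hj => hF j (mem_insert_of_mem hj)))
      ((h i (mem_insert_self _ _)).pos (hF i (mem_insert_self _ _)))
      (Pos.prod s fun j hj => hF j (mem_insert_of_mem hj))
    refine Pos.congr h1 fun χ => ?_
    beta_reduce
    rw [prod_insert hi, prod_insert hi]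

/-- telescoping -/
lemma PLe.telescope {ι : Type*} [DecidableEq ι] (s : Finset ι)
    {R H E : ι → DirichletCharacter ℂ q → ℂ}
    (h : ∀ i ∈ s, ∀ χ, R i χ = H i χ + E i χ) (hH : ∀ i ∈ s, Pos (H i))
    (hE : ∀ i ∈ s, Pos (E i)) :
    PLe (fun χ => ∏ i ∈ s, R i χ)
      (fun χ => ∏ i ∈ s, H i χ + ∑ i ∈ s, E i χ * ∏ j ∈ s.erase i, R j χ) := by
  have hR : ∀ i ∈ s, Pos (R i) := fun i hi => ((hH i hi).add (hE i hi)).congr (h i hi)
  induction s using Finset.induction_on with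
  | empty => exact Pos.zero.congr fun χ => by simp
  | insert i s hi ih =>
    have h1 := ih (fun j hj => h j (mem_insert_of_mem hj)) (fun j hj => hH j (mem_insert_of_mem hj))
      (fun j hj => hE j (mem_insert_of_mem hj)) (fun j hj => hR j (mem_insert_of_mem hj))
    have h2 : Pos (fun χ : DirichletCharacter ℂ q =>
        H i χ * ((∏ i ∈ s, H i χ + ∑ i ∈ s, E i χ * ∏ j ∈ s.erase i, R j χ) - ∏ i ∈ s, R i χ)) :=
      (hH i (mem_insert_self _ _)).mul h1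
    have h3 : Pos (fun χ : DirichletCharacter ℂ q =>
        E i χ * (∑ i ∈ s, E i χ * ∏ j ∈ s.erase i, R j χ)) := by
      refine (hE i (mem_insert_self _ _)).mul (Pos.sum s fun j hj => ?_)
      refine (hE j (mem_insert_of_mem hj)).mul (Pos.prod _ fun k hk => ?_)
      exact hR k (mem_insert_of_mem (mem_of_mem_erase hk))
    refine (h2.add h3).congr fun χ => ?_
    have e1 : ∑ j ∈ s, E j χ * ∏ k ∈ (insert i s).erase j, R k χ =
        R i χ * ∑ j ∈ s, E j χ * ∏ k ∈ s.erase j, R k χ := by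
      rw [mul_sum]
      refine sum_congr rfl fun j hj => ?_
      have hij : i ≠ j := fun e => hi (e ▸ hj)
      rw [erase_insert_of_ne hij, prod_insert (fun e => hi (mem_of_mem_erase e))]
      ring
    beta_reduce
    rw [prod_insert hi, prod_insert hi, sum_insert hi, erase_insert hi, e1,
      h i (mem_insert_self _ _)]
    ring

lemma PosFam.mono {𝓕 : Finset (DirichletCharacter ℂ q)} (h𝓕 : PosFam 𝓕)
    {F G : DirichletCharacter ℂ q → ℂ} (h : PLe F G) :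
    (∑ χ ∈ 𝓕, F χ).re ≤ (∑ χ ∈ 𝓕, G χ).re := by
  have h1 := h𝓕.nonneg h
  rw [sum_sub_distrib, Complex.le_def] at h1
  have h2 := h1.1
  rw [Complex.sub_re, Complex.zero_re] at h2
  linarith

lemma normSq_re {α : Type*} (s : Finset α) (f : α → ℂ) :
    (∑ i ∈ s, f i * conj (f i)).re = ∑ i ∈ s, ‖f i‖ ^ 2 := by
  rw [Complex.re_sum]
  refine sum_congr rfl fun i _ => ?_
  rw [Complex.mul_conj, Complex.normSq_eq_norm_sq, Complex.ofReal_re]

/-- the resonator of one block -/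
noncomputable def Rb (s : DirichletCharacter ℂ q → ℂ) (K : ℕ) (χ : DirichletCharacter ℂ q) : ℂ :=
  ∑ i ∈ range (K + 1), s χ ^ (K + i)

/-- its main part -/
noncomputable def Hb (s : DirichletCharacter ℂ q → ℂ) (K : ℕ) (χ : DirichletCharacter ℂ q) : ℂ :=
  ∑ i ∈ range K, s χ ^ (K + i + 1)

lemma Rb_eq (s : DirichletCharacter ℂ q → ℂ) (K : ℕ) (χ : DirichletCharacter ℂ q) :
    Rb s K χ = Hb s K χ + s χ ^ K := by
  rw [Rb, Hb, sum_range_succ', add_zero]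
  rfl

lemma Hb_le {s : DirichletCharacter ℂ q → ℂ} (hs : Pos s) (K : ℕ) :
    PLe (Hb s K) (fun χ => s χ * Rb s K χ) := by
  refine (hs.pow (2 * K + 1)).congr fun χ => ?_
  beta_reduce
  rw [Rb, Hb, mul_sum, sum_range_succ]
  have : ∀ i, s χ * s χ ^ (K + i) = s χ ^ (K + i + 1) := fun i => by ring
  simp_rw [this]
  ring

lemma Rb_pos {s : DirichletCharacter ℂ q → ℂ} (hs : Pos s) (K : ℕ) : Pos (Rb s K) :=
  (Pos.sum (range (K + 1)) fun i _ => hs.pow (K + i)).congr fun _ => rfl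

lemma Hb_pos {s : DirichletCharacter ℂ q → ℂ} (hs : Pos s) (K : ℕ) : Pos (Hb s K) :=
  (Pos.sum (range K) fun i _ => hs.pow (K + i + 1)).congr fun _ => rfl

lemma top_le {s : DirichletCharacter ℂ q → ℂ} (hs : Pos s) (K : ℕ) :
    PLe (fun χ => s χ ^ (2 * K)) (Rb s K) := by
  refine (Pos.sum (range K) fun i _ => hs.pow (K + i)).congr fun χ => ?_
  beta_reduce
  rw [Rb, sum_range_succ]
  ring

lemma top_sq_le {s : DirichletCharacter ℂ q → ℂ} (hs : Pos s) (K : ℕ) :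
    PLe (fun χ => s χ ^ (2 * K) * conj (s χ) ^ (2 * K)) (fun χ => Rb s K χ * conj (Rb s K χ)) := by
  refine (top_le hs K).mul (G := fun χ => conj (s χ) ^ (2 * K)) (G' := fun χ => conj (Rb s K χ))
    ?_ (Rb_pos hs K) (hs.conj.pow _)
  refine (top_le hs K).conj.congr fun χ => ?_
  rw [map_sub, map_pow]

/-- the contribution of the lowest power in one block is small -/
lemma low_le {𝓕 : Finset (DirichletCharacter ℂ q)} (h𝓕 : PosFam 𝓕)
    {s W : DirichletCharacter ℂ q → ℂ} (hs : Pos s) (hW : Pos W) {K : ℕ}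
    (hA : PLe (fun _ => ((4 ^ K : ℝ) : ℂ)) (fun χ => s χ ^ K * conj (s χ) ^ K)) :
    ∑ χ ∈ 𝓕, ‖s χ ^ K * W χ‖ ^ 2 ≤ (1 / 4) ^ K * ∑ χ ∈ 𝓕, ‖Rb s K χ * W χ‖ ^ 2 := by
  set M0 := ∑ χ ∈ 𝓕, ‖W χ‖ ^ 2 with hM0
  set M1 := ∑ χ ∈ 𝓕, ‖s χ ^ K * W χ‖ ^ 2 with hM1
  set M2 := ∑ χ ∈ 𝓕, ‖s χ ^ (2 * K) * W χ‖ ^ 2 with hM2
  have hWW : Pos (fun χ => W χ * conj (W χ)) := hW.mul hW.conj
  have h1 : 4 ^ K * M0 ≤ M1 := by
    have h := h𝓕.mono (PLe.mul hA (PLe.refl fun χ => W χ * conj (W χ))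
      ((hs.pow K).mul (hs.conj.pow K)) hWW)
    have e1 : (∑ χ ∈ 𝓕, ((4 ^ K : ℝ) : ℂ) * (W χ * conj (W χ))).re = 4 ^ K * M0 := by
      rw [← mul_sum, Complex.re_ofReal_mul, normSq_re]
    have e2 : (∑ χ ∈ 𝓕, s χ ^ K * conj (s χ) ^ K * (W χ * conj (W χ))).re = M1 := by
      rw [hM1, ← normSq_re]
      refine congrArg Complex.re (sum_congr rfl fun χ _ => ?_)
      rw [map_mul, map_pow]
      ring
    rw [e1, e2] at h
    exact h
  have h2 : M2 ≤ ∑ χ ∈ 𝓕, ‖Rb s K χ * W χ‖ ^ 2 := by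
    have h := h𝓕.mono (PLe.mul (top_sq_le hs K) (PLe.refl fun χ => W χ * conj (W χ))
      ((Rb_pos hs K).mul (Rb_pos hs K).conj) hWW)
    have e1 : (∑ χ ∈ 𝓕, s χ ^ (2 * K) * conj (s χ) ^ (2 * K) * (W χ * conj (W χ))).re = M2 := by
      rw [hM2, ← normSq_re]
      refine congrArg Complex.re (sum_congr rfl fun χ _ => ?_)
      rw [map_mul, map_pow]
      ring
    have e2 : (∑ χ ∈ 𝓕, Rb s K χ * conj (Rb s K χ) * (W χ * conj (W χ))).re =
        ∑ χ ∈ 𝓕, ‖Rb s K χ * W χ‖ ^ 2 := by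
      rw [← normSq_re]
      refine congrArg Complex.re (sum_congr rfl fun χ _ => ?_)
      rw [map_mul]
      ring
    rw [e1, e2] at h
    exact h
  have h3 : M1 ^ 2 ≤ M0 * M2 := by
    have h := sum_mul_sq_le_sq_mul_sq 𝓕 (fun χ => ‖W χ‖) (fun χ => ‖s χ ^ (2 * K) * W χ‖)
    refine le_trans (le_of_eq ?_) h
    congr 1
    refine sum_congr rfl fun χ _ => ?_
    rw [norm_mul, norm_mul, norm_pow, norm_pow]
    ring
  have hM1n : 0 ≤ M1 := sum_nonneg fun _ _ => by positivity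
  have hM2n : 0 ≤ M2 := sum_nonneg fun _ _ => by positivity
  have h4 : 4 ^ K * M1 ≤ M2 := by
    rcases hM1n.eq_or_lt with h | h
    · rw [← h, mul_zero]
      exact hM2n
    · have : 4 ^ K * M1 * M1 ≤ M2 * M1 := by
        calc 4 ^ K * M1 * M1 = 4 ^ K * M1 ^ 2 := by ring
          _ ≤ 4 ^ K * (M0 * M2) := mul_le_mul_of_nonneg_left h3 (by positivity)
          _ = 4 ^ K * M0 * M2 := by ring
          _ ≤ M1 * M2 := mul_le_mul_of_nonneg_right h1 hM2n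
          _ = M2 * M1 := by ring
      exact le_of_mul_le_mul_right this h
  have h5 : M1 = (1 / 4) ^ K * (4 ^ K * M1) := by
    rw [← mul_assoc, ← mul_pow]
    norm_num
  rw [h5]
  exact mul_le_mul_of_nonneg_left (h4.trans h2) (by positivity)

/-- the resonance inequality -/
theorem resonance {𝓕 : Finset (DirichletCharacter ℂ q)} (h𝓕 : PosFam 𝓕) {ι : Type*}
    [DecidableEq ι] (B : Finset ι) {s : ι → DirichletCharacter ℂ q → ℂ} (K : ι → ℕ)
    (hs : ∀ b ∈ B, Pos (s b))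
    (hA : ∀ b ∈ B, PLe (fun _ => ((4 ^ K b : ℝ) : ℂ)) (fun χ => s b χ ^ K b * conj (s b χ) ^ K b))
    {L : DirichletCharacter ℂ q → ℂ} (hL : PLe (fun χ => ∏ b ∈ B, (2 * s b χ)) L) :
    2 ^ #B * (1 - ∑ b ∈ B, (1 / 2) ^ K b) * ∑ χ ∈ 𝓕, ‖∏ b ∈ B, Rb (s b) (K b) χ‖ ^ 2 ≤
      (∑ χ ∈ 𝓕, L χ * ((∏ b ∈ B, Rb (s b) (K b) χ) * conj (∏ b ∈ B, Rb (s b) (K b) χ))).re := by
  set R : DirichletCharacter ℂ q → ℂ := fun χ => ∏ b ∈ B, Rb (s b) (K b) χ with hR
  have hRp : Pos R := Pos.prod B fun b hb => Rb_pos (hs b hb) (K b)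
  set T := ∑ χ ∈ 𝓕, ‖R χ‖ ^ 2 with hT
  have hTn : 0 ≤ T := sum_nonneg fun _ _ => by positivity
  -- the main part
  have h1 : PLe (fun χ => ∏ b ∈ B, Hb (s b) (K b) χ)
      (fun χ => (∏ b ∈ B, s b χ) * R χ) := by
    refine Pos.congr (PLe.prod B (F := fun b => Hb (s b) (K b))
      (G := fun b χ => s b χ * Rb (s b) (K b) χ) (fun b hb => Hb_le (hs b hb) (K b))
      (fun b hb => Hb_pos (hs b hb) (K b))) fun χ => ?_
    beta_reduce
    rw [prod_mul_distrib]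
  have h2 : PLe (fun χ => (2 : ℂ) ^ #B * ((∏ b ∈ B, Hb (s b) (K b) χ) * conj (R χ)))
      (fun χ => L χ * (R χ * conj (R χ))) := by
    have a1 : PLe (fun χ => (∏ b ∈ B, (2 * s b χ)) * (R χ * conj (R χ)))
        (fun χ => L χ * (R χ * conj (R χ))) := by
      refine PLe.mul hL (PLe.refl fun χ => R χ * conj (R χ)) (hL.pos ?_) (hRp.mul hRp.conj)
      refine Pos.prod B fun b hb => ((hs b hb).smul (c := 2) (by norm_num)).congr fun χ => ?_
      norm_num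
    have a2 : Pos (fun χ => ((2 ^ #B : ℝ) : ℂ) *
        (((∏ b ∈ B, s b χ) * R χ - ∏ b ∈ B, Hb (s b) (K b) χ) * conj (R χ))) :=
      (Pos.mul h1 hRp.conj).smul (by positivity)
    refine PLe.trans (Pos.congr a2 fun χ => ?_) a1
    beta_reduce
    rw [prod_mul_distrib, prod_const]
    push_cast
    ring
  have h3 := h𝓕.mono h2
  rw [← mul_sum] at h3
  have h4 : ((2 : ℂ) ^ #B * ∑ χ ∈ 𝓕, (∏ b ∈ B, Hb (s b) (K b) χ) * conj (R χ)).re =
      2 ^ #B * (∑ χ ∈ 𝓕, (∏ b ∈ B, Hb (s b) (K b) χ) * conj (R χ)).re := by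
    have : (2 : ℂ) ^ #B = ((2 ^ #B : ℝ) : ℂ) := by push_cast; rfl
    rw [this, Complex.re_ofReal_mul]
  rw [h4] at h3
  -- telescoping
  have h5 := PLe.telescope B (R := fun b => Rb (s b) (K b)) (H := fun b => Hb (s b) (K b))
    (E := fun b χ => s b χ ^ K b) (fun b _ χ => Rb_eq _ _ _) (fun b hb => Hb_pos (hs b hb) _)
    (fun b hb => (hs b hb).pow _)
  have h6 := h𝓕.mono (PLe.mul h5 (PLe.refl fun χ => conj (R χ))
    (((Pos.prod B fun b hb => Hb_pos (hs b hb) (K b)).add (Pos.sum B fun b hb =>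
      ((hs b hb).pow (K b)).mul (Pos.prod _ fun c hc =>
        Rb_pos (hs c (mem_of_mem_erase hc)) (K c))))) hRp.conj)
  have h7 : (∑ χ ∈ 𝓕, (∏ b ∈ B, Rb (s b) (K b) χ) * conj (R χ)).re = T := by
    rw [hT, ← normSq_re]
  have h8 : (∑ χ ∈ 𝓕, (∏ b ∈ B, Hb (s b) (K b) χ +
      ∑ b ∈ B, s b χ ^ K b * ∏ c ∈ B.erase b, Rb (s c) (K c) χ) * conj (R χ)).re =
      (∑ χ ∈ 𝓕, (∏ b ∈ B, Hb (s b) (K b) χ) * conj (R χ)).re +
      ∑ b ∈ B, (∑ χ ∈ 𝓕, (s b χ ^ K b * ∏ c ∈ B.erase b, Rb (s c) (K c) χ) *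
        conj (R χ)).re := by
    rw [← Complex.re_sum, ← Complex.add_re, sum_comm, ← sum_add_distrib]
    refine congrArg Complex.re (sum_congr rfl fun χ _ => ?_)
    rw [add_mul, sum_mul]
  have h9 : ∀ b ∈ B, (∑ χ ∈ 𝓕, (s b χ ^ K b * ∏ c ∈ B.erase b, Rb (s c) (K c) χ) *
      conj (R χ)).re ≤ (1 / 2) ^ K b * T := by
    intro b hb
    set W : DirichletCharacter ℂ q → ℂ := fun χ => ∏ c ∈ B.erase b, Rb (s c) (K c) χ with hW
    have hWp : Pos W := Pos.prod _ fun c hc => Rb_pos (hs c (mem_of_mem_erase hc)) (K c)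
    have b1 := low_le h𝓕 (hs b hb) hWp (hA b hb)
    have b2 : ∑ χ ∈ 𝓕, ‖Rb (s b) (K b) χ * W χ‖ ^ 2 = T := by
      refine sum_congr rfl fun χ _ => ?_
      rw [hW, hR]
      beta_reduce
      rw [mul_prod_erase B (fun c => Rb (s c) (K c) χ) hb]
    rw [b2] at b1
    have b3 : (∑ χ ∈ 𝓕, (s b χ ^ K b * W χ) * conj (R χ)).re ≤
        ∑ χ ∈ 𝓕, ‖s b χ ^ K b * W χ‖ * ‖R χ‖ := by
      rw [Complex.re_sum]
      refine sum_le_sum fun χ _ => (Complex.re_le_norm _).trans ?_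
      rw [norm_mul, Complex.norm_conj]
    have b4 := sum_mul_sq_le_sq_mul_sq 𝓕 (fun χ => ‖s b χ ^ K b * W χ‖) (fun χ => ‖R χ‖)
    have b5 : (∑ χ ∈ 𝓕, ‖s b χ ^ K b * W χ‖ * ‖R χ‖) ^ 2 ≤ ((1 / 2) ^ K b * T) ^ 2 := by
      refine b4.trans ((mul_le_mul_of_nonneg_right b1 hTn).trans (le_of_eq ?_))
      rw [mul_pow, ← pow_mul, mul_comm (K b) 2, pow_mul]
      norm_num
      ring
    exact b3.trans (le_of_sq_le_sq b5 (by positivity))
  have h10 := sum_le_sum h9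
  rw [← sum_mul] at h10
  beta_reduce at h6
  rw [h7, h8] at h6
  have h11 : (1 - ∑ b ∈ B, (1 / 2) ^ K b) * T ≤
      (∑ χ ∈ 𝓕, (∏ b ∈ B, Hb (s b) (K b) χ) * conj (R χ)).re := by linarith
  calc 2 ^ #B * (1 - ∑ b ∈ B, (1 / 2) ^ K b) * T
      = 2 ^ #B * ((1 - ∑ b ∈ B, (1 / 2) ^ K b) * T) := by ring
    _ ≤ 2 ^ #B * (∑ χ ∈ 𝓕, (∏ b ∈ B, Hb (s b) (K b) χ) * conj (R χ)).re :=
        mul_le_mul_of_nonneg_left h11 (by positivity)
    _ ≤ _ := h3

end Pool.Agent.Q28.SG
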